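import Mathlib

/-!
# Partitions of zero-sum sequences into many zero-sum blocks: general lemmas
-/

set_option autoImplicit false
set_option linter.unusedSectionVars false
set_option linter.unusedSimpArgs false

namespace Pool.Agent.T2H37.CI

open Finset

variable {m : ℕ} {ι : Type*} [DecidableEq ι]

/-- the sequence `b` on `S` is a union of `q` blocks with zero sum -/
def Split (b : ι → ZMod m) (S : Finset ι) (q : ℕ) : Prop :=
  ∃ g : ι → ℕ, (∀ i ∈ S, g i < q) ∧ ∀ B < q, (∃ i ∈ S, g i = B) ∧ ∑ i ∈ S with g i = B, b i = 0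

lemma Split.zero (b : ι → ZMod m) : Split b ∅ 0 :=
  ⟨fun _ => 0, by simp, by simp⟩

lemma Split.cons {b : ι → ZMod m} {S T : Finset ι} {q : ℕ} (hT : T ⊆ S) (hne : T.Nonempty)
    (hz : ∑ i ∈ T, b i = 0) (h : Split b (S \ T) q) : Split b S (q + 1) := by
  obtain ⟨g, hg1, hg2⟩ := h
  refine ⟨fun i => if i ∈ T then q else g i, ?_, ?_⟩
  · intro i hi
    by_cases hiT : i ∈ T
    · simp [hiT]
    · simp only [hiT, if_false]
      have := hg1 i (mem_sdiff.2 ⟨hi, hiT⟩)
      omega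
  · intro B hB
    rcases Nat.lt_succ_iff_lt_or_eq.1 hB with hB | hB
    · obtain ⟨⟨i, hi, hgi⟩, hs⟩ := hg2 B hB
      rw [mem_sdiff] at hi
      refine ⟨⟨i, hi.1, by simp [hi.2, hgi]⟩, ?_⟩
      rw [← hs]
      refine sum_congr ?_ fun _ _ => rfl
      ext j
      simp only [mem_filter, mem_sdiff]
      constructor
      · rintro ⟨h1, h2⟩
        by_cases hjT : j ∈ T
        · simp only [hjT, if_true] at h2
          omega
        · simp only [hjT, if_false] at h2
          exact ⟨⟨h1, hjT⟩, h2⟩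
      · rintro ⟨⟨h1, h2⟩, h3⟩
        exact ⟨h1, by simp [h2, h3]⟩
    · subst hB
      obtain ⟨i, hi⟩ := hne
      refine ⟨⟨i, hT hi, by simp [hi]⟩, ?_⟩
      rw [← hz]
      refine sum_congr ?_ fun _ _ => rfl
      ext j
      simp only [mem_filter]
      constructor
      · rintro ⟨h1, h2⟩
        by_contra hjT
        simp only [hjT, if_false] at h2
        have := hg1 j (mem_sdiff.2 ⟨h1, hjT⟩)
        omega
      · intro hj
        exact ⟨hT hj, by simp [hj]⟩

/-- number of elements of `S` with value `x` -/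
def cnt (b : ι → ZMod m) (S : Finset ι) (x : ZMod m) : ℕ := #{i ∈ S | b i = x}

/-- the weight -/
def wt (b : ι → ZMod m) (S : Finset ι) (t : ZMod m) : ℕ := ∑ i ∈ S, (t * b i).val

/-- the number of blocks is at least the smallest weight, divided by `m` -/
def PP (b : ι → ZMod m) (S : Finset ι) : Prop :=
  ∃ q, Split b S q ∧ ∃ t : ZMod m, IsUnit t ∧ wt b S t ≤ q * m

variable [NeZero m]

lemma wt_eq (b : ι → ZMod m) (S : Finset ι) (t : ZMod m) :
    wt b S t = ∑ x, cnt b S x * (t * x).val := by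
  rw [wt, ← sum_fiberwise S b]
  refine sum_congr rfl fun x _ => ?_
  rw [cnt, ← smul_eq_mul, ← sum_const]
  refine sum_congr rfl fun i hi => ?_
  rw [(mem_filter.1 hi).2]

lemma sum_eq (b : ι → ZMod m) (S : Finset ι) : ∑ i ∈ S, b i = ∑ x, (cnt b S x : ZMod m) * x := by
  rw [← sum_fiberwise S b]
  refine sum_congr rfl fun x _ => ?_
  rw [cnt, ← nsmul_eq_mul, ← sum_const]
  refine sum_congr rfl fun i hi => ?_
  rw [(mem_filter.1 hi).2]

lemma exists_sub (b : ι → ZMod m) (S : Finset ι) (τ : ZMod m → ℕ) (hτ : ∀ x, τ x ≤ cnt b S x) :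
    ∃ T ⊆ S, ∀ x, cnt b T x = τ x := by
  choose T hT hT' using fun x => exists_subset_card_eq (hτ x)
  refine ⟨univ.biUnion T, ?_, fun x => ?_⟩
  · intro i hi
    rw [mem_biUnion] at hi
    obtain ⟨x, _, hx⟩ := hi
    exact (mem_filter.1 (hT x hx)).1
  · rw [cnt, ← hT' x]
    congr 1
    ext i
    rw [mem_filter, mem_biUnion]
    constructor
    · rintro ⟨⟨y, _, hy⟩, hx⟩
      have h1 := (mem_filter.1 (hT y hy)).2
      rw [hx] at h1
      rwa [h1]
    · intro hi
      exact ⟨⟨x, mem_univ x, hi⟩, (mem_filter.1 (hT x hi)).2⟩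

lemma cnt_sdiff (b : ι → ZMod m) {S T : Finset ι} (hT : T ⊆ S) (x : ZMod m) :
    cnt b S x = cnt b (S \ T) x + cnt b T x := by
  rw [cnt, cnt, cnt, ← card_union_of_disjoint]
  · congr 1
    ext i
    simp only [mem_filter, mem_union, mem_sdiff]
    constructor
    · rintro ⟨h1, h2⟩
      by_cases h : i ∈ T
      · exact Or.inr ⟨h, h2⟩
      · exact Or.inl ⟨⟨h1, h⟩, h2⟩
    · rintro (⟨⟨h1, _⟩, h2⟩ | ⟨h1, h2⟩)
      · exact ⟨h1, h2⟩
      · exact ⟨hT h1, h2⟩
  · rw [disjoint_left]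
    intro i hi hi'
    simp only [mem_filter, mem_sdiff] at hi hi'
    exact hi.1.2 hi'.1

/-- removal of one block -/
lemma step (b : ι → ZMod m) (S : Finset ι) (τ : ZMod m → ℕ) (hτ0 : 0 < ∑ x, τ x)
    (hτ : ∀ x, τ x ≤ cnt b S x) (hz : ∑ x, (τ x : ZMod m) * x = 0)
    (hS : ∑ i ∈ S, b i = 0)
    (IH : ∀ S' : Finset ι, S' ⊆ S → #S' < #S → ∑ i ∈ S', b i = 0 → PP b S')
    (hdom : ∀ (n : ZMod m → ℕ) (q : ℕ), (∀ x, cnt b S x = n x + τ x) →
      (∃ t : ZMod m, IsUnit t ∧ ∑ x, n x * (t * x).val ≤ q * m) →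
        ∃ t : ZMod m, IsUnit t ∧ ∑ x, (n x + τ x) * (t * x).val ≤ (q + 1) * m) :
    PP b S := by
  obtain ⟨T, hT, hTc⟩ := exists_sub b S τ hτ
  have hTne : T.Nonempty := by
    rw [nonempty_iff_ne_empty]
    rintro rfl
    have h1 : ∑ x, τ x = 0 := by
      refine sum_eq_zero fun x _ => ?_
      rw [← hTc x]
      simp [cnt]
    omega
  have hTz : ∑ i ∈ T, b i = 0 := by
    rw [sum_eq, ← hz]
    refine sum_congr rfl fun x _ => ?_
    rw [hTc x]
  have hS' : ∑ i ∈ S \ T, b i = 0 := by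
    have h1 := sum_sdiff (f := b) hT
    rw [hTz, add_zero, hS] at h1
    exact h1
  obtain ⟨q, hq, t, ht, hw⟩ := IH (S \ T) sdiff_subset
    (card_lt_card (sdiff_ssubset hT hTne)) hS'
  have hc : ∀ x, cnt b S x = cnt b (S \ T) x + τ x := by
    intro x
    rw [cnt_sdiff b hT x, hTc x]
  obtain ⟨t', ht', hw'⟩ := hdom (fun x => cnt b (S \ T) x) q hc ⟨t, ht, by rwa [← wt_eq]⟩
  refine ⟨q + 1, hq.cons hT hTne hTz, t', ht', ?_⟩
  rw [wt_eq]
  refine le_trans (le_of_eq ?_) hw'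
  refine sum_congr rfl fun x _ => ?_
  rw [hc x]

end Pool.Agent.T2H37.CI
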