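import Pool.Agent.T2H37.CI.Comb

/-!
# Partitions of zero-sum sequences modulo 2 into blocks
-/

set_option autoImplicit false
set_option linter.unusedSectionVars false
set_option linter.unusedSimpArgs false
set_option linter.unusedVariables false

namespace Pool.Agent.T2H37.CI

open Finset

variable {ι : Type*} [DecidableEq ι]

lemma unit2 (t : ZMod 2) (ht : IsUnit t) : t = 1 := by
  rw [isUnit_iff_exists_inv] at ht
  revert ht t
  decide

lemma unit2_1 : IsUnit (1 : ZMod 2) := by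
  rw [isUnit_iff_exists_inv]
  decide

lemma wt2_1 (n : ZMod 2 → ℕ) (h0 : n 0 = 0) : ∑ x, n x * ((1 : ZMod 2) * x).val =
    1 * n 1 := by
  have h : ∀ F : ZMod 2 → ℕ, ∑ x, F x = F 0 + F 1 := fun F => Fin.sum_univ_two F
  rw [h, h0]
  simp only [show (((1 : ZMod 2) * 0).val) = 0 from by decide,
    show (((1 : ZMod 2) * 1).val) = 1 from by decide]
  ring

lemma step2 (b : ι → ZMod 2) (S : Finset ι) (hS : ∑ i ∈ S, b i = 0) (h0 : cnt b S 0 = 0)
    (IH : ∀ S' : Finset ι, S' ⊆ S → #S' < #S → ∑ i ∈ S', b i = 0 → PP b S')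
    (t1 : ℕ) (hpos : 0 < t1)
    (h1 : t1 ≤ cnt b S 1)
    (hz : (1 * t1) % 2 = 0)
    (hdom : ∀ n1 q : ℕ, cnt b S 1 = n1 + t1 →
      (1 * n1 ≤ q * 2) →
      (1 * (n1 + t1) ≤ (q + 1) * 2)) :
    PP b S := by
  have hsum : ∀ F : ZMod 2 → ℕ, ∑ x, F x = F 0 + F 1 := fun F => Fin.sum_univ_two F
  have hsum' : ∀ F : ZMod 2 → ZMod 2, ∑ x, F x = F 0 + F 1 := fun F => Fin.sum_univ_two F
  set τ : ZMod 2 → ℕ := (![0, t1] : Fin 2 → ℕ) with hτ
  have e0 : τ 0 = 0 := rfl
  have e1 : τ 1 = t1 := rfl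
  refine step b S τ ?_ ?_ ?_ hS IH ?_
  · rw [hsum, e0, e1]
    omega
  · intro x
    have hx : x = 0 ∨ x = 1 := by
      revert x
      decide
    rcases hx with rfl | rfl
    · rw [e0]; exact Nat.zero_le _
    · rw [e1]; exact h1
  · rw [hsum', e0, e1]
    have h := (ZMod.natCast_eq_zero_iff (1 * t1) 2).2 (Nat.dvd_of_mod_eq_zero hz)
    push_cast at h ⊢
    refine Eq.trans ?_ h
    ring
  · rintro n q hn ⟨t, ht, hw⟩
    have hn0 : n 0 = 0 := by
      have := hn 0
      omega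
    have hnt0 : n 0 + τ 0 = 0 := by rw [hn0, e0]
    have hd := hdom (n 1) q (by rw [hn 1, e1]) (by
      rcases unit2 t ht with rfl
      · rw [wt2_1 n hn0] at hw; exact hw
      )
    refine ⟨1, unit2_1, ?_⟩
    rw [wt2_1 (fun x => n x + τ x) hnt0, e1]
    exact hd

theorem pp2 (b : ι → ZMod 2) (S : Finset ι) (h0 : ∀ i ∈ S, b i ≠ 0) (hS : ∑ i ∈ S, b i = 0) :
    PP b S := by
  induction hk : #S using Nat.strong_induction_on generalizing S with
  | _ k ih =>
  have IH : ∀ S' : Finset ι, S' ⊆ S → #S' < #S → ∑ i ∈ S', b i = 0 → PP b S' := by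
    intro S' hS' hc hz
    exact ih _ (by rw [← hk]; exact hc) S' (fun i hi => h0 i (hS' hi)) hz rfl
  have hc0 : cnt b S 0 = 0 := by
    rw [cnt, card_eq_zero, filter_eq_empty_iff]
    exact fun i hi => h0 i hi
  rcases S.eq_empty_or_nonempty with hSe | hne
  · subst hSe
    exact ⟨0, Split.zero b, 1, isUnit_one, by simp [wt]⟩
  have hpos : 0 < cnt b S 1 := by
    obtain ⟨i, hi⟩ := hne
    have hbi : b i = 1 := by
      have h := h0 i hi
      revert h
      generalize b i = y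
      revert y
      decide
    have hcp : ∀ x, b i = x → 0 < cnt b S x := fun x hx => card_pos.2 ⟨i, mem_filter.2 ⟨hi, hx⟩⟩
    have := hcp _ hbi
    omega
  have hmod : (1 * cnt b S 1) % 2 = 0 := by
    have hsum' : ∀ F : ZMod 2 → ZMod 2, ∑ x, F x = F 0 + F 1 := fun F => Fin.sum_univ_two F
    have h := hS
    rw [sum_eq, hsum'] at h
    have h' : ((1 * cnt b S 1 : ℕ) : ZMod 2) = 0 := by
      refine Eq.trans ?_ h
      push_cast
      rw [hc0]
      push_cast
      ring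
    exact Nat.mod_eq_zero_of_dvd ((ZMod.natCast_eq_zero_iff _ 2).1 h')
  have key := step2 b S hS hc0 IH
  clear IH ih hk h0 hS hc0 hne
  generalize cnt b S 1 = c1 at *
  by_cases p1 : 2 ≤ c1
  · exact key 2 (by norm_num) (by omega) (by norm_num) (by intro n1 q a1 hh; omega)
  exfalso; omega

end Pool.Agent.T2H37.CI
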