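import Pool.Agent.T2H37.CI.Comb

/-!
# Partitions of zero-sum sequences modulo 4 into blocks
-/

set_option autoImplicit false
set_option linter.unusedSectionVars false
set_option linter.unusedSimpArgs false
set_option linter.unusedVariables false

namespace Pool.Agent.T2H37.CI

open Finset

variable {ι : Type*} [DecidableEq ι]

lemma unit4 (t : ZMod 4) (ht : IsUnit t) : t = 1 ∨ t = 3 := by
  rw [isUnit_iff_exists_inv] at ht
  revert ht t
  decide

lemma unit4_1 : IsUnit (1 : ZMod 4) := by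
  rw [isUnit_iff_exists_inv]
  decide

lemma unit4_3 : IsUnit (3 : ZMod 4) := by
  rw [isUnit_iff_exists_inv]
  decide

lemma wt4_1 (n : ZMod 4 → ℕ) (h0 : n 0 = 0) : ∑ x, n x * ((1 : ZMod 4) * x).val =
    1 * n 1 + 2 * n 2 + 3 * n 3 := by
  have h : ∀ F : ZMod 4 → ℕ, ∑ x, F x = F 0 + F 1 + F 2 + F 3 := fun F => Fin.sum_univ_four F
  rw [h, h0]
  simp only [show (((1 : ZMod 4) * 0).val) = 0 from by decide,
    show (((1 : ZMod 4) * 1).val) = 1 from by decide,
    show (((1 : ZMod 4) * 2).val) = 2 from by decide,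
    show (((1 : ZMod 4) * 3).val) = 3 from by decide]
  ring

lemma wt4_3 (n : ZMod 4 → ℕ) (h0 : n 0 = 0) : ∑ x, n x * ((3 : ZMod 4) * x).val =
    3 * n 1 + 2 * n 2 + 1 * n 3 := by
  have h : ∀ F : ZMod 4 → ℕ, ∑ x, F x = F 0 + F 1 + F 2 + F 3 := fun F => Fin.sum_univ_four F
  rw [h, h0]
  simp only [show (((3 : ZMod 4) * 0).val) = 0 from by decide,
    show (((3 : ZMod 4) * 1).val) = 3 from by decide,
    show (((3 : ZMod 4) * 2).val) = 2 from by decide,
    show (((3 : ZMod 4) * 3).val) = 1 from by decide]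
  ring

lemma step4 (b : ι → ZMod 4) (S : Finset ι) (hS : ∑ i ∈ S, b i = 0) (h0 : cnt b S 0 = 0)
    (IH : ∀ S' : Finset ι, S' ⊆ S → #S' < #S → ∑ i ∈ S', b i = 0 → PP b S')
    (t1 t2 t3 : ℕ) (hpos : 0 < t1 + t2 + t3)
    (h1 : t1 ≤ cnt b S 1)
    (h2 : t2 ≤ cnt b S 2)
    (h3 : t3 ≤ cnt b S 3)
    (hz : (1 * t1 + 2 * t2 + 3 * t3) % 4 = 0)
    (hdom : ∀ n1 n2 n3 q : ℕ, cnt b S 1 = n1 + t1 → cnt b S 2 = n2 + t2 → cnt b S 3 = n3 + t3 →
      (1 * n1 + 2 * n2 + 3 * n3 ≤ q * 4 ∨ 3 * n1 + 2 * n2 + 1 * n3 ≤ q * 4) →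
      (1 * (n1 + t1) + 2 * (n2 + t2) + 3 * (n3 + t3) ≤ (q + 1) * 4 ∨ 3 * (n1 + t1) + 2 * (n2 + t2) + 1 * (n3 + t3) ≤ (q + 1) * 4)) :
    PP b S := by
  have hsum : ∀ F : ZMod 4 → ℕ, ∑ x, F x = F 0 + F 1 + F 2 + F 3 := fun F => Fin.sum_univ_four F
  have hsum' : ∀ F : ZMod 4 → ZMod 4, ∑ x, F x = F 0 + F 1 + F 2 + F 3 := fun F => Fin.sum_univ_four F
  set τ : ZMod 4 → ℕ := (![0, t1, t2, t3] : Fin 4 → ℕ) with hτ
  have e0 : τ 0 = 0 := rfl
  have e1 : τ 1 = t1 := rfl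
  have e2 : τ 2 = t2 := rfl
  have e3 : τ 3 = t3 := rfl
  refine step b S τ ?_ ?_ ?_ hS IH ?_
  · rw [hsum, e0, e1, e2, e3]
    omega
  · intro x
    have hx : x = 0 ∨ x = 1 ∨ x = 2 ∨ x = 3 := by
      revert x
      decide
    rcases hx with rfl | rfl | rfl | rfl
    · rw [e0]; exact Nat.zero_le _
    · rw [e1]; exact h1
    · rw [e2]; exact h2
    · rw [e3]; exact h3
  · rw [hsum', e0, e1, e2, e3]
    have h := (ZMod.natCast_eq_zero_iff (1 * t1 + 2 * t2 + 3 * t3) 4).2 (Nat.dvd_of_mod_eq_zero hz)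
    push_cast at h ⊢
    refine Eq.trans ?_ h
    ring
  · rintro n q hn ⟨t, ht, hw⟩
    have hn0 : n 0 = 0 := by
      have := hn 0
      omega
    have hnt0 : n 0 + τ 0 = 0 := by rw [hn0, e0]
    have hd := hdom (n 1) (n 2) (n 3) q (by rw [hn 1, e1]) (by rw [hn 2, e2]) (by rw [hn 3, e3]) (by
      rcases unit4 t ht with rfl | rfl
      · left; rw [wt4_1 n hn0] at hw; exact hw
      · right; rw [wt4_3 n hn0] at hw; exact hw
      )
    rcases hd with hd | hd
    · refine ⟨1, unit4_1, ?_⟩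
      rw [wt4_1 (fun x => n x + τ x) hnt0, e1, e2, e3]
      exact hd
    · refine ⟨3, unit4_3, ?_⟩
      rw [wt4_3 (fun x => n x + τ x) hnt0, e1, e2, e3]
      exact hd

theorem pp4 (b : ι → ZMod 4) (S : Finset ι) (h0 : ∀ i ∈ S, b i ≠ 0) (hS : ∑ i ∈ S, b i = 0) :
    PP b S := by
  induction hk : #S using Nat.strong_induction_on generalizing S with
  | _ k ih =>
  have IH : ∀ S' : Finset ι, S' ⊆ S → #S' < #S → ∑ i ∈ S', b i = 0 → PP b S' := by
    intro S' hS' hc hz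
    exact ih _ (by rw [← hk]; exact hc) S' (fun i hi => h0 i (hS' hi)) hz rfl
  have hc0 : cnt b S 0 = 0 := by
    rw [cnt, card_eq_zero, filter_eq_empty_iff]
    exact fun i hi => h0 i hi
  rcases S.eq_empty_or_nonempty with hSe | hne
  · subst hSe
    exact ⟨0, Split.zero b, 1, isUnit_one, by simp [wt]⟩
  have hpos : 0 < cnt b S 1 + cnt b S 2 + cnt b S 3 := by
    obtain ⟨i, hi⟩ := hne
    have hbi : b i = 1 ∨ b i = 2 ∨ b i = 3 := by
      have h := h0 i hi
      revert h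
      generalize b i = y
      revert y
      decide
    have hcp : ∀ x, b i = x → 0 < cnt b S x := fun x hx => card_pos.2 ⟨i, mem_filter.2 ⟨hi, hx⟩⟩
    rcases hbi with h | h | h <;> (have := hcp _ h; omega)
  have hmod : (1 * cnt b S 1 + 2 * cnt b S 2 + 3 * cnt b S 3) % 4 = 0 := by
    have hsum' : ∀ F : ZMod 4 → ZMod 4, ∑ x, F x = F 0 + F 1 + F 2 + F 3 := fun F => Fin.sum_univ_four F
    have h := hS
    rw [sum_eq, hsum'] at h
    have h' : ((1 * cnt b S 1 + 2 * cnt b S 2 + 3 * cnt b S 3 : ℕ) : ZMod 4) = 0 := by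
      refine Eq.trans ?_ h
      push_cast
      rw [hc0]
      push_cast
      ring
    exact Nat.mod_eq_zero_of_dvd ((ZMod.natCast_eq_zero_iff _ 4).1 h')
  have key := step4 b S hS hc0 IH
  clear IH ih hk h0 hS hc0 hne
  generalize cnt b S 1 = c1 at *
  generalize cnt b S 2 = c2 at *
  generalize cnt b S 3 = c3 at *
  by_cases p1 : 1 ≤ c1 ∧ 1 ≤ c3
  · exact key 1 0 1 (by norm_num) (by omega) (by omega) (by omega) (by norm_num) (by intro n1 n2 n3 q a1 a2 a3 hh; omega)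
  by_cases p2 : 2 ≤ c2
  · exact key 0 2 0 (by norm_num) (by omega) (by omega) (by omega) (by norm_num) (by intro n1 n2 n3 q a1 a2 a3 hh; omega)
  by_cases z1 : c1 = 0
  · -- yes
    by_cases z2 : c2 = 0
    · -- yes
      exact key 0 0 4 (by norm_num) (by omega) (by omega) (by omega) (by norm_num) (by intro n1 n2 n3 q a1 a2 a3 hh; omega)
    · -- no
      exact key 0 1 2 (by norm_num) (by omega) (by omega) (by omega) (by norm_num) (by intro n1 n2 n3 q a1 a2 a3 hh; omega)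
  · -- no
    by_cases z2 : c2 = 0
    · -- yes
      exact key 4 0 0 (by norm_num) (by omega) (by omega) (by omega) (by norm_num) (by intro n1 n2 n3 q a1 a2 a3 hh; omega)
    · -- no
      exact key 2 1 0 (by norm_num) (by omega) (by omega) (by omega) (by norm_num) (by intro n1 n2 n3 q a1 a2 a3 hh; omega)

end Pool.Agent.T2H37.CI
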