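import Pool.Agent.T2H37.CI.Comb

/-!
# Partitions of zero-sum sequences modulo 7 into blocks
-/

set_option autoImplicit false
set_option linter.unusedSectionVars false
set_option linter.unusedSimpArgs false
set_option linter.unusedVariables false

namespace Pool.Agent.T2H37.CI

open Finset

variable {ι : Type*} [DecidableEq ι]

lemma unit7 (t : ZMod 7) (ht : IsUnit t) : t = 1 ∨ t = 2 ∨ t = 3 ∨ t = 4 ∨ t = 5 ∨ t = 6 := by
  rw [isUnit_iff_exists_inv] at ht
  revert ht t
  decide

lemma unit7_1 : IsUnit (1 : ZMod 7) := by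
  rw [isUnit_iff_exists_inv]
  decide

lemma unit7_2 : IsUnit (2 : ZMod 7) := by
  rw [isUnit_iff_exists_inv]
  decide

lemma unit7_3 : IsUnit (3 : ZMod 7) := by
  rw [isUnit_iff_exists_inv]
  decide

lemma unit7_4 : IsUnit (4 : ZMod 7) := by
  rw [isUnit_iff_exists_inv]
  decide

lemma unit7_5 : IsUnit (5 : ZMod 7) := by
  rw [isUnit_iff_exists_inv]
  decide

lemma unit7_6 : IsUnit (6 : ZMod 7) := by
  rw [isUnit_iff_exists_inv]
  decide

lemma wt7_1 (n : ZMod 7 → ℕ) (h0 : n 0 = 0) : ∑ x, n x * ((1 : ZMod 7) * x).val =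
    1 * n 1 + 2 * n 2 + 3 * n 3 + 4 * n 4 + 5 * n 5 + 6 * n 6 := by
  have h : ∀ F : ZMod 7 → ℕ, ∑ x, F x = F 0 + F 1 + F 2 + F 3 + F 4 + F 5 + F 6 := fun F => Fin.sum_univ_seven F
  rw [h, h0]
  simp only [show (((1 : ZMod 7) * 0).val) = 0 from by decide,
    show (((1 : ZMod 7) * 1).val) = 1 from by decide,
    show (((1 : ZMod 7) * 2).val) = 2 from by decide,
    show (((1 : ZMod 7) * 3).val) = 3 from by decide,
    show (((1 : ZMod 7) * 4).val) = 4 from by decide,
    show (((1 : ZMod 7) * 5).val) = 5 from by decide,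
    show (((1 : ZMod 7) * 6).val) = 6 from by decide]
  ring

lemma wt7_2 (n : ZMod 7 → ℕ) (h0 : n 0 = 0) : ∑ x, n x * ((2 : ZMod 7) * x).val =
    2 * n 1 + 4 * n 2 + 6 * n 3 + 1 * n 4 + 3 * n 5 + 5 * n 6 := by
  have h : ∀ F : ZMod 7 → ℕ, ∑ x, F x = F 0 + F 1 + F 2 + F 3 + F 4 + F 5 + F 6 := fun F => Fin.sum_univ_seven F
  rw [h, h0]
  simp only [show (((2 : ZMod 7) * 0).val) = 0 from by decide,
    show (((2 : ZMod 7) * 1).val) = 2 from by decide,
    show (((2 : ZMod 7) * 2).val) = 4 from by decide,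
    show (((2 : ZMod 7) * 3).val) = 6 from by decide,
    show (((2 : ZMod 7) * 4).val) = 1 from by decide,
    show (((2 : ZMod 7) * 5).val) = 3 from by decide,
    show (((2 : ZMod 7) * 6).val) = 5 from by decide]
  ring

lemma wt7_3 (n : ZMod 7 → ℕ) (h0 : n 0 = 0) : ∑ x, n x * ((3 : ZMod 7) * x).val =
    3 * n 1 + 6 * n 2 + 2 * n 3 + 5 * n 4 + 1 * n 5 + 4 * n 6 := by
  have h : ∀ F : ZMod 7 → ℕ, ∑ x, F x = F 0 + F 1 + F 2 + F 3 + F 4 + F 5 + F 6 := fun F => Fin.sum_univ_seven F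
  rw [h, h0]
  simp only [show (((3 : ZMod 7) * 0).val) = 0 from by decide,
    show (((3 : ZMod 7) * 1).val) = 3 from by decide,
    show (((3 : ZMod 7) * 2).val) = 6 from by decide,
    show (((3 : ZMod 7) * 3).val) = 2 from by decide,
    show (((3 : ZMod 7) * 4).val) = 5 from by decide,
    show (((3 : ZMod 7) * 5).val) = 1 from by decide,
    show (((3 : ZMod 7) * 6).val) = 4 from by decide]
  ring

lemma wt7_4 (n : ZMod 7 → ℕ) (h0 : n 0 = 0) : ∑ x, n x * ((4 : ZMod 7) * x).val =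
    4 * n 1 + 1 * n 2 + 5 * n 3 + 2 * n 4 + 6 * n 5 + 3 * n 6 := by
  have h : ∀ F : ZMod 7 → ℕ, ∑ x, F x = F 0 + F 1 + F 2 + F 3 + F 4 + F 5 + F 6 := fun F => Fin.sum_univ_seven F
  rw [h, h0]
  simp only [show (((4 : ZMod 7) * 0).val) = 0 from by decide,
    show (((4 : ZMod 7) * 1).val) = 4 from by decide,
    show (((4 : ZMod 7) * 2).val) = 1 from by decide,
    show (((4 : ZMod 7) * 3).val) = 5 from by decide,
    show (((4 : ZMod 7) * 4).val) = 2 from by decide,
    show (((4 : ZMod 7) * 5).val) = 6 from by decide,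
    show (((4 : ZMod 7) * 6).val) = 3 from by decide]
  ring

lemma wt7_5 (n : ZMod 7 → ℕ) (h0 : n 0 = 0) : ∑ x, n x * ((5 : ZMod 7) * x).val =
    5 * n 1 + 3 * n 2 + 1 * n 3 + 6 * n 4 + 4 * n 5 + 2 * n 6 := by
  have h : ∀ F : ZMod 7 → ℕ, ∑ x, F x = F 0 + F 1 + F 2 + F 3 + F 4 + F 5 + F 6 := fun F => Fin.sum_univ_seven F
  rw [h, h0]
  simp only [show (((5 : ZMod 7) * 0).val) = 0 from by decide,
    show (((5 : ZMod 7) * 1).val) = 5 from by decide,
    show (((5 : ZMod 7) * 2).val) = 3 from by decide,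
    show (((5 : ZMod 7) * 3).val) = 1 from by decide,
    show (((5 : ZMod 7) * 4).val) = 6 from by decide,
    show (((5 : ZMod 7) * 5).val) = 4 from by decide,
    show (((5 : ZMod 7) * 6).val) = 2 from by decide]
  ring

lemma wt7_6 (n : ZMod 7 → ℕ) (h0 : n 0 = 0) : ∑ x, n x * ((6 : ZMod 7) * x).val =
    6 * n 1 + 5 * n 2 + 4 * n 3 + 3 * n 4 + 2 * n 5 + 1 * n 6 := by
  have h : ∀ F : ZMod 7 → ℕ, ∑ x, F x = F 0 + F 1 + F 2 + F 3 + F 4 + F 5 + F 6 := fun F => Fin.sum_univ_seven F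
  rw [h, h0]
  simp only [show (((6 : ZMod 7) * 0).val) = 0 from by decide,
    show (((6 : ZMod 7) * 1).val) = 6 from by decide,
    show (((6 : ZMod 7) * 2).val) = 5 from by decide,
    show (((6 : ZMod 7) * 3).val) = 4 from by decide,
    show (((6 : ZMod 7) * 4).val) = 3 from by decide,
    show (((6 : ZMod 7) * 5).val) = 2 from by decide,
    show (((6 : ZMod 7) * 6).val) = 1 from by decide]
  ring

lemma step7 (b : ι → ZMod 7) (S : Finset ι) (hS : ∑ i ∈ S, b i = 0) (h0 : cnt b S 0 = 0)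
    (IH : ∀ S' : Finset ι, S' ⊆ S → #S' < #S → ∑ i ∈ S', b i = 0 → PP b S')
    (t1 t2 t3 t4 t5 t6 : ℕ) (hpos : 0 < t1 + t2 + t3 + t4 + t5 + t6)
    (h1 : t1 ≤ cnt b S 1)
    (h2 : t2 ≤ cnt b S 2)
    (h3 : t3 ≤ cnt b S 3)
    (h4 : t4 ≤ cnt b S 4)
    (h5 : t5 ≤ cnt b S 5)
    (h6 : t6 ≤ cnt b S 6)
    (hz : (1 * t1 + 2 * t2 + 3 * t3 + 4 * t4 + 5 * t5 + 6 * t6) % 7 = 0)
    (hdom : ∀ n1 n2 n3 n4 n5 n6 q : ℕ, cnt b S 1 = n1 + t1 → cnt b S 2 = n2 + t2 → cnt b S 3 = n3 + t3 → cnt b S 4 = n4 + t4 → cnt b S 5 = n5 + t5 → cnt b S 6 = n6 + t6 →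
      (1 * n1 + 2 * n2 + 3 * n3 + 4 * n4 + 5 * n5 + 6 * n6 ≤ q * 7 ∨ 2 * n1 + 4 * n2 + 6 * n3 + 1 * n4 + 3 * n5 + 5 * n6 ≤ q * 7 ∨ 3 * n1 + 6 * n2 + 2 * n3 + 5 * n4 + 1 * n5 + 4 * n6 ≤ q * 7 ∨ 4 * n1 + 1 * n2 + 5 * n3 + 2 * n4 + 6 * n5 + 3 * n6 ≤ q * 7 ∨ 5 * n1 + 3 * n2 + 1 * n3 + 6 * n4 + 4 * n5 + 2 * n6 ≤ q * 7 ∨ 6 * n1 + 5 * n2 + 4 * n3 + 3 * n4 + 2 * n5 + 1 * n6 ≤ q * 7) →
      (1 * (n1 + t1) + 2 * (n2 + t2) + 3 * (n3 + t3) + 4 * (n4 + t4) + 5 * (n5 + t5) + 6 * (n6 + t6) ≤ (q + 1) * 7 ∨ 2 * (n1 + t1) + 4 * (n2 + t2) + 6 * (n3 + t3) + 1 * (n4 + t4) + 3 * (n5 + t5) + 5 * (n6 + t6) ≤ (q + 1) * 7 ∨ 3 * (n1 + t1) + 6 * (n2 + t2) + 2 * (n3 + t3) + 5 * (n4 + t4) + 1 * (n5 + t5) + 4 * (n6 + t6) ≤ (q + 1) * 7 ∨ 4 * (n1 + t1) + 1 * (n2 + t2) + 5 * (n3 + t3) + 2 * (n4 + t4) + 6 * (n5 + t5) + 3 * (n6 + t6) ≤ (q + 1) * 7 ∨ 5 * (n1 + t1) + 3 * (n2 + t2) + 1 * (n3 + t3) + 6 * (n4 + t4) + 4 * (n5 + t5) + 2 * (n6 + t6) ≤ (q + 1) * 7 ∨ 6 * (n1 + t1) + 5 * (n2 + t2) + 4 *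 (n3 + t3) + 3 * (n4 + t4) + 2 * (n5 + t5) + 1 * (n6 + t6) ≤ (q + 1) * 7)) :
    PP b S := by
  have hsum : ∀ F : ZMod 7 → ℕ, ∑ x, F x = F 0 + F 1 + F 2 + F 3 + F 4 + F 5 + F 6 := fun F => Fin.sum_univ_seven F
  have hsum' : ∀ F : ZMod 7 → ZMod 7, ∑ x, F x = F 0 + F 1 + F 2 + F 3 + F 4 + F 5 + F 6 := fun F => Fin.sum_univ_seven F
  set τ : ZMod 7 → ℕ := (![0, t1, t2, t3, t4, t5, t6] : Fin 7 → ℕ) with hτ
  have e0 : τ 0 = 0 := rfl
  have e1 : τ 1 = t1 := rfl
  have e2 : τ 2 = t2 := rfl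
  have e3 : τ 3 = t3 := rfl
  have e4 : τ 4 = t4 := rfl
  have e5 : τ 5 = t5 := rfl
  have e6 : τ 6 = t6 := rfl
  refine step b S τ ?_ ?_ ?_ hS IH ?_
  · rw [hsum, e0, e1, e2, e3, e4, e5, e6]
    omega
  · intro x
    have hx : x = 0 ∨ x = 1 ∨ x = 2 ∨ x = 3 ∨ x = 4 ∨ x = 5 ∨ x = 6 := by
      revert x
      decide
    rcases hx with rfl | rfl | rfl | rfl | rfl | rfl | rfl
    · rw [e0]; exact Nat.zero_le _
    · rw [e1]; exact h1
    · rw [e2]; exact h2
    · rw [e3]; exact h3
    · rw [e4]; exact h4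
    · rw [e5]; exact h5
    · rw [e6]; exact h6
  · rw [hsum', e0, e1, e2, e3, e4, e5, e6]
    have h := (ZMod.natCast_eq_zero_iff (1 * t1 + 2 * t2 + 3 * t3 + 4 * t4 + 5 * t5 + 6 * t6) 7).2 (Nat.dvd_of_mod_eq_zero hz)
    push_cast at h ⊢
    refine Eq.trans ?_ h
    ring
  · rintro n q hn ⟨t, ht, hw⟩
    have hn0 : n 0 = 0 := by
      have := hn 0
      omega
    have hnt0 : n 0 + τ 0 = 0 := by rw [hn0, e0]
    have hd := hdom (n 1) (n 2) (n 3) (n 4) (n 5) (n 6) q (by rw [hn 1, e1]) (by rw [hn 2, e2]) (by rw [hn 3, e3]) (by rw [hn 4, e4]) (by rw [hn 5, e5]) (by rw [hn 6, e6]) (by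
      rcases unit7 t ht with rfl | rfl | rfl | rfl | rfl | rfl
      · left; rw [wt7_1 n hn0] at hw; exact hw
      · right; left; rw [wt7_2 n hn0] at hw; exact hw
      · right; right; left; rw [wt7_3 n hn0] at hw; exact hw
      · right; right; right; left; rw [wt7_4 n hn0] at hw; exact hw
      · right; right; right; right; left; rw [wt7_5 n hn0] at hw; exact hw
      · right; right; right; right; right; rw [wt7_6 n hn0] at hw; exact hw
      )
    rcases hd with hd | hd | hd | hd | hd | hd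
    · refine ⟨1, unit7_1, ?_⟩
      rw [wt7_1 (fun x => n x + τ x) hnt0, e1, e2, e3, e4, e5, e6]
      exact hd
    · refine ⟨2, unit7_2, ?_⟩
      rw [wt7_2 (fun x => n x + τ x) hnt0, e1, e2, e3, e4, e5, e6]
      exact hd
    · refine ⟨3, unit7_3, ?_⟩
      rw [wt7_3 (fun x => n x + τ x) hnt0, e1, e2, e3, e4, e5, e6]
      exact hd
    · refine ⟨4, unit7_4, ?_⟩
      rw [wt7_4 (fun x => n x + τ x) hnt0, e1, e2, e3, e4, e5, e6]
      exact hd
    · refine ⟨5, unit7_5, ?_⟩
      rw [wt7_5 (fun x => n x + τ x) hnt0, e1, e2, e3, e4, e5, e6]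
      exact hd
    · refine ⟨6, unit7_6, ?_⟩
      rw [wt7_6 (fun x => n x + τ x) hnt0, e1, e2, e3, e4, e5, e6]
      exact hd

/-- a block can be removed -/
def Rem7 (c1 c2 c3 c4 c5 c6 : ℕ) : Prop :=
  ∃ t1 t2 t3 t4 t5 t6 : ℕ, 0 < t1 + t2 + t3 + t4 + t5 + t6 ∧ t1 ≤ c1 ∧ t2 ≤ c2 ∧ t3 ≤ c3 ∧ t4 ≤ c4 ∧ t5 ≤ c5 ∧ t6 ≤ c6 ∧
    (1 * t1 + 2 * t2 + 3 * t3 + 4 * t4 + 5 * t5 + 6 * t6) % 7 = 0 ∧
    ∀ n1 n2 n3 n4 n5 n6 q : ℕ, c1 = n1 + t1 → c2 = n2 + t2 → c3 = n3 + t3 → c4 = n4 + t4 → c5 = n5 + t5 → c6 = n6 + t6 →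
      (1 * n1 + 2 * n2 + 3 * n3 + 4 * n4 + 5 * n5 + 6 * n6 ≤ q * 7 ∨ 2 * n1 + 4 * n2 + 6 * n3 + 1 * n4 + 3 * n5 + 5 * n6 ≤ q * 7 ∨ 3 * n1 + 6 * n2 + 2 * n3 + 5 * n4 + 1 * n5 + 4 * n6 ≤ q * 7 ∨ 4 * n1 + 1 * n2 + 5 * n3 + 2 * n4 + 6 * n5 + 3 * n6 ≤ q * 7 ∨ 5 * n1 + 3 * n2 + 1 * n3 + 6 * n4 + 4 * n5 + 2 * n6 ≤ q * 7 ∨ 6 * n1 + 5 * n2 + 4 * n3 + 3 * n4 + 2 * n5 + 1 * n6 ≤ q * 7) →
      (1 * (n1 + t1) + 2 * (n2 + t2) + 3 * (n3 + t3) + 4 * (n4 + t4) + 5 * (n5 + t5) + 6 * (n6 + t6) ≤ (q + 1) * 7 ∨ 2 * (n1 + t1) + 4 * (n2 + t2) + 6 * (n3 + t3) + 1 * (n4 + t4) + 3 * (n5 + t5) + 5 * (n6 + t6) ≤ (q + 1) * 7 ∨ 3 * (n1 + t1) + 6 * (n2 + t2) + 2 * (n3 + t3) + 5 * (n4 + t4) + 1 * (n5 + t5) + 4 * (n6 + t6) ≤ (q + 1) * 7 ∨ 4 * (n1 + t1) + 1 * (n2 + t2) + 5 * (n3 + t3) + 2 * (n4 + t4) + 6 * (n5 + t5) + 3 * (n6 + t6) ≤ (q + 1) * 7 ∨ 5 * (n1 + t1) + 3 * (n2 + t2) + 1 * (n3 + t3) + 6 * (n4 + t4) + 4 * (n5 + t5) + 2 * (n6 + t6) ≤ (q + 1) * 7 ∨ 6 * (n1 + t1) + 5 * (n2 + t2) + 4 *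 (n3 + t3) + 3 * (n4 + t4) + 2 * (n5 + t5) + 1 * (n6 + t6) ≤ (q + 1) * 7)

lemma rot7 {c1 c2 c3 c4 c5 c6 : ℕ} (h : Rem7 c1 c2 c3 c4 c5 c6) : Rem7 c5 c3 c1 c6 c4 c2 := by
  obtain ⟨t1, t2, t3, t4, t5, t6, k1, l1, l2, l3, l4, l5, l6, k2, k3⟩ := h
  refine ⟨t5, t3, t1, t6, t4, t2, by omega, l5, l3, l1, l6, l4, l2, by omega, ?_⟩
  intro n5 n3 n1 n6 n4 n2 q a5 a3 a1 a6 a4 a2 hh
  have h1 := k3 n1 n2 n3 n4 n5 n6 q a1 a2 a3 a4 a5 a6 (by
    rcases hh with hh | hh | hh | hh | hh | hh
    · exact Or.inr (Or.inr (Or.inl (by omega)))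
    · exact Or.inr (Or.inr (Or.inr (Or.inr (Or.inr ((by omega))))))
    · exact Or.inr (Or.inl (by omega))
    · exact Or.inr (Or.inr (Or.inr (Or.inr (Or.inl (by omega)))))
    · exact Or.inl (by omega)
    · exact Or.inr (Or.inr (Or.inr (Or.inl (by omega))))
    )
  rcases h1 with h1 | h1 | h1 | h1 | h1 | h1
  · exact Or.inr (Or.inr (Or.inr (Or.inr (Or.inl (by omega)))))
  · exact Or.inr (Or.inr (Or.inl (by omega)))
  · exact Or.inl (by omega)
  · exact Or.inr (Or.inr (Or.inr (Or.inr (Or.inr ((by omega))))))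
  · exact Or.inr (Or.inr (Or.inr (Or.inl (by omega))))
  · exact Or.inr (Or.inl (by omega))

lemma base7_123 {c1 c2 c3 c4 c5 c6 : ℕ} (hpos : 0 < c1 + c2 + c3 + c4 + c5 + c6)
    (hmod : (1 * c1 + 2 * c2 + 3 * c3 + 4 * c4 + 5 * c5 + 6 * c6) % 7 = 0) (e4 : c4 = 0) (e5 : c5 = 0) (e6 : c6 = 0) :
    Rem7 c1 c2 c3 c4 c5 c6 := by
  subst e4
  subst e5
  subst e6
  by_cases z : c3 ≤ 0
  · by_cases z : c1 ≤ 0
    · refine ⟨0, 7, 0, 0, 0, 0, by norm_num, by omega, by omega, by omega, by omega, by omega, by omega, by norm_num, ?_⟩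
      intro n1 n2 n3 n4 n5 n6 q a1 a2 a3 a4 a5 a6 hh
      have z4 : n4 = 0 := by omega
      have z5 : n5 = 0 := by omega
      have z6 : n6 = 0 := by omega
      rcases hh with hh | hh | hh | hh | hh | hh
      · omega
      · omega
      · omega
      · exact Or.inr (Or.inr (Or.inr (Or.inl (by omega))))
      · omega
      · omega
    · by_cases z : 3 ≤ c2
      · refine ⟨1, 3, 0, 0, 0, 0, by norm_num, by omega, by omega, by omega, by omega, by omega, by omega, by norm_num, ?_⟩
        intro n1 n2 n3 n4 n5 n6 q a1 a2 a3 a4 a5 a6 hh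
        have z4 : n4 = 0 := by omega
        have z5 : n5 = 0 := by omega
        have z6 : n6 = 0 := by omega
        rcases hh with hh | hh | hh | hh | hh | hh
        · exact Or.inl (by omega)
        · exact Or.inl (by omega)
        · omega
        · exact Or.inr (Or.inr (Or.inr (Or.inl (by omega))))
        · omega
        · exact Or.inl (by omega)
      · by_cases z : c2 ≤ 0
        · refine ⟨7, 0, 0, 0, 0, 0, by norm_num, by omega, by omega, by omega, by omega, by omega, by omega, by norm_num, ?_⟩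
          intro n1 n2 n3 n4 n5 n6 q a1 a2 a3 a4 a5 a6 hh
          have z4 : n4 = 0 := by omega
          have z5 : n5 = 0 := by omega
          have z6 : n6 = 0 := by omega
          rcases hh with hh | hh | hh | hh | hh | hh
          · exact Or.inl (by omega)
          · exact Or.inl (by omega)
          · omega
          · omega
          · omega
          · exact Or.inl (by omega)
        · by_cases z : c2 ≤ 1
          · refine ⟨5, 1, 0, 0, 0, 0, by norm_num, by omega, by omega, by omega, by omega, by omega, by omega, by norm_num, ?_⟩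
            intro n1 n2 n3 n4 n5 n6 q a1 a2 a3 a4 a5 a6 hh
            have z4 : n4 = 0 := by omega
            have z5 : n5 = 0 := by omega
            have z6 : n6 = 0 := by omega
            rcases hh with hh | hh | hh | hh | hh | hh
            · exact Or.inl (by omega)
            · exact Or.inl (by omega)
            · omega
            · omega
            · omega
            · exact Or.inl (by omega)
          · refine ⟨3, 2, 0, 0, 0, 0, by norm_num, by omega, by omega, by omega, by omega, by omega, by omega, by norm_num, ?_⟩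
            intro n1 n2 n3 n4 n5 n6 q a1 a2 a3 a4 a5 a6 hh
            have z4 : n4 = 0 := by omega
            have z5 : n5 = 0 := by omega
            have z6 : n6 = 0 := by omega
            rcases hh with hh | hh | hh | hh | hh | hh
            · exact Or.inl (by omega)
            · exact Or.inl (by omega)
            · omega
            · omega
            · omega
            · exact Or.inl (by omega)
  · by_cases z : 2 ≤ c2
    · refine ⟨0, 2, 1, 0, 0, 0, by norm_num, by omega, by omega, by omega, by omega, by omega, by omega, by norm_num, ?_⟩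
      intro n1 n2 n3 n4 n5 n6 q a1 a2 a3 a4 a5 a6 hh
      have z4 : n4 = 0 := by omega
      have z5 : n5 = 0 := by omega
      have z6 : n6 = 0 := by omega
      rcases hh with hh | hh | hh | hh | hh | hh
      · exact Or.inl (by omega)
      · exact Or.inl (by omega)
      · omega
      · exact Or.inr (Or.inr (Or.inr (Or.inl (by omega))))
      · exact Or.inr (Or.inr (Or.inr (Or.inr (Or.inl (by omega)))))
      · exact Or.inl (by omega)
    · by_cases z : c3 ≤ 1
      · by_cases z : c2 ≤ 0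
        · refine ⟨4, 0, 1, 0, 0, 0, by norm_num, by omega, by omega, by omega, by omega, by omega, by omega, by norm_num, ?_⟩
          intro n1 n2 n3 n4 n5 n6 q a1 a2 a3 a4 a5 a6 hh
          have z4 : n4 = 0 := by omega
          have z5 : n5 = 0 := by omega
          have z6 : n6 = 0 := by omega
          rcases hh with hh | hh | hh | hh | hh | hh
          · exact Or.inl (by omega)
          · exact Or.inl (by omega)
          · omega
          · omega
          · omega
          · exact Or.inl (by omega)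
        · refine ⟨2, 1, 1, 0, 0, 0, by norm_num, by omega, by omega, by omega, by omega, by omega, by omega, by norm_num, ?_⟩
          intro n1 n2 n3 n4 n5 n6 q a1 a2 a3 a4 a5 a6 hh
          have z4 : n4 = 0 := by omega
          have z5 : n5 = 0 := by omega
          have z6 : n6 = 0 := by omega
          rcases hh with hh | hh | hh | hh | hh | hh
          · exact Or.inl (by omega)
          · exact Or.inl (by omega)
          · omega
          · omega
          · omega
          · exact Or.inl (by omega)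
      · by_cases z : 1 ≤ c1
        · refine ⟨1, 0, 2, 0, 0, 0, by norm_num, by omega, by omega, by omega, by omega, by omega, by omega, by norm_num, ?_⟩
          intro n1 n2 n3 n4 n5 n6 q a1 a2 a3 a4 a5 a6 hh
          have z4 : n4 = 0 := by omega
          have z5 : n5 = 0 := by omega
          have z6 : n6 = 0 := by omega
          rcases hh with hh | hh | hh | hh | hh | hh
          · exact Or.inl (by omega)
          · exact Or.inl (by omega)
          · exact Or.inr (Or.inr (Or.inl (by omega)))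
          · omega
          · exact Or.inr (Or.inr (Or.inr (Or.inr (Or.inl (by omega)))))
          · exact Or.inl (by omega)
        · by_cases z : c2 ≤ 0
          · refine ⟨0, 0, 7, 0, 0, 0, by norm_num, by omega, by omega, by omega, by omega, by omega, by omega, by norm_num, ?_⟩
            intro n1 n2 n3 n4 n5 n6 q a1 a2 a3 a4 a5 a6 hh
            have z4 : n4 = 0 := by omega
            have z5 : n5 = 0 := by omega
            have z6 : n6 = 0 := by omega
            rcases hh with hh | hh | hh | hh | hh | hh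
            · omega
            · omega
            · omega
            · omega
            · exact Or.inr (Or.inr (Or.inr (Or.inr (Or.inl (by omega)))))
            · exact Or.inr (Or.inr (Or.inr (Or.inr (Or.inl (by omega)))))
          · refine ⟨0, 1, 4, 0, 0, 0, by norm_num, by omega, by omega, by omega, by omega, by omega, by omega, by norm_num, ?_⟩
            intro n1 n2 n3 n4 n5 n6 q a1 a2 a3 a4 a5 a6 hh
            have z4 : n4 = 0 := by omega
            have z5 : n5 = 0 := by omega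
            have z6 : n6 = 0 := by omega
            rcases hh with hh | hh | hh | hh | hh | hh
            · omega
            · omega
            · omega
            · omega
            · exact Or.inr (Or.inr (Or.inr (Or.inr (Or.inl (by omega)))))
            · exact Or.inr (Or.inr (Or.inr (Or.inr (Or.inl (by omega)))))

lemma base7_124 {c1 c2 c3 c4 c5 c6 : ℕ} (hpos : 0 < c1 + c2 + c3 + c4 + c5 + c6)
    (hmod : (1 * c1 + 2 * c2 + 3 * c3 + 4 * c4 + 5 * c5 + 6 * c6) % 7 = 0) (e3 : c3 = 0) (e5 : c5 = 0) (e6 : c6 = 0) :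
    Rem7 c1 c2 c3 c4 c5 c6 := by
  subst e3
  subst e5
  subst e6
  by_cases z : c4 ≤ 0
  · by_cases z : c1 ≤ 0
    · refine ⟨0, 7, 0, 0, 0, 0, by norm_num, by omega, by omega, by omega, by omega, by omega, by omega, by norm_num, ?_⟩
      intro n1 n2 n3 n4 n5 n6 q a1 a2 a3 a4 a5 a6 hh
      have z3 : n3 = 0 := by omega
      have z5 : n5 = 0 := by omega
      have z6 : n6 = 0 := by omega
      rcases hh with hh | hh | hh | hh | hh | hh
      · omega
      · omega
      · omega
      · exact Or.inr (Or.inr (Or.inr (Or.inl (by omega))))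
      · exact Or.inr (Or.inr (Or.inr (Or.inl (by omega))))
      · exact Or.inr (Or.inr (Or.inr (Or.inl (by omega))))
    · by_cases z : 3 ≤ c2
      · refine ⟨1, 3, 0, 0, 0, 0, by norm_num, by omega, by omega, by omega, by omega, by omega, by omega, by norm_num, ?_⟩
        intro n1 n2 n3 n4 n5 n6 q a1 a2 a3 a4 a5 a6 hh
        have z3 : n3 = 0 := by omega
        have z5 : n5 = 0 := by omega
        have z6 : n6 = 0 := by omega
        rcases hh with hh | hh | hh | hh | hh | hh
        · exact Or.inl (by omega)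
        · omega
        · exact Or.inl (by omega)
        · exact Or.inr (Or.inr (Or.inr (Or.inl (by omega))))
        · exact Or.inl (by omega)
        · exact Or.inr (Or.inr (Or.inr (Or.inl (by omega))))
      · by_cases z : c2 ≤ 0
        · refine ⟨7, 0, 0, 0, 0, 0, by norm_num, by omega, by omega, by omega, by omega, by omega, by omega, by norm_num, ?_⟩
          intro n1 n2 n3 n4 n5 n6 q a1 a2 a3 a4 a5 a6 hh
          have z3 : n3 = 0 := by omega
          have z5 : n5 = 0 := by omega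
          have z6 : n6 = 0 := by omega
          rcases hh with hh | hh | hh | hh | hh | hh
          · exact Or.inl (by omega)
          · omega
          · exact Or.inl (by omega)
          · omega
          · exact Or.inl (by omega)
          · omega
        · by_cases z : c2 ≤ 1
          · refine ⟨5, 1, 0, 0, 0, 0, by norm_num, by omega, by omega, by omega, by omega, by omega, by omega, by norm_num, ?_⟩
            intro n1 n2 n3 n4 n5 n6 q a1 a2 a3 a4 a5 a6 hh
            have z3 : n3 = 0 := by omega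
            have z5 : n5 = 0 := by omega
            have z6 : n6 = 0 := by omega
            rcases hh with hh | hh | hh | hh | hh | hh
            · exact Or.inl (by omega)
            · omega
            · exact Or.inl (by omega)
            · omega
            · exact Or.inl (by omega)
            · omega
          · refine ⟨3, 2, 0, 0, 0, 0, by norm_num, by omega, by omega, by omega, by omega, by omega, by omega, by norm_num, ?_⟩
            intro n1 n2 n3 n4 n5 n6 q a1 a2 a3 a4 a5 a6 hh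
            have z3 : n3 = 0 := by omega
            have z5 : n5 = 0 := by omega
            have z6 : n6 = 0 := by omega
            rcases hh with hh | hh | hh | hh | hh | hh
            · exact Or.inl (by omega)
            · omega
            · exact Or.inl (by omega)
            · omega
            · exact Or.inl (by omega)
            · omega
  · by_cases z : c1 ≤ 0
    · by_cases z : c2 ≤ 0
      · refine ⟨0, 0, 0, 7, 0, 0, by norm_num, by omega, by omega, by omega, by omega, by omega, by omega, by norm_num, ?_⟩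
        intro n1 n2 n3 n4 n5 n6 q a1 a2 a3 a4 a5 a6 hh
        have z3 : n3 = 0 := by omega
        have z5 : n5 = 0 := by omega
        have z6 : n6 = 0 := by omega
        rcases hh with hh | hh | hh | hh | hh | hh
        · omega
        · exact Or.inr (Or.inl (by omega))
        · exact Or.inr (Or.inl (by omega))
        · omega
        · omega
        · exact Or.inr (Or.inl (by omega))
      · by_cases z : 3 ≤ c4
        · refine ⟨0, 1, 0, 3, 0, 0, by norm_num, by omega, by omega, by omega, by omega, by omega, by omega, by norm_num, ?_⟩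
          intro n1 n2 n3 n4 n5 n6 q a1 a2 a3 a4 a5 a6 hh
          have z3 : n3 = 0 := by omega
          have z5 : n5 = 0 := by omega
          have z6 : n6 = 0 := by omega
          rcases hh with hh | hh | hh | hh | hh | hh
          · omega
          · exact Or.inr (Or.inl (by omega))
          · exact Or.inr (Or.inl (by omega))
          · exact Or.inr (Or.inr (Or.inr (Or.inl (by omega))))
          · exact Or.inr (Or.inr (Or.inr (Or.inl (by omega))))
          · exact Or.inr (Or.inl (by omega))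
        · by_cases z : c4 ≤ 0
          · refine ⟨0, 7, 0, 0, 0, 0, by norm_num, by omega, by omega, by omega, by omega, by omega, by omega, by norm_num, ?_⟩
            intro n1 n2 n3 n4 n5 n6 q a1 a2 a3 a4 a5 a6 hh
            have z3 : n3 = 0 := by omega
            have z5 : n5 = 0 := by omega
            have z6 : n6 = 0 := by omega
            rcases hh with hh | hh | hh | hh | hh | hh
            · omega
            · omega
            · omega
            · exact Or.inr (Or.inr (Or.inr (Or.inl (by omega))))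
            · exact Or.inr (Or.inr (Or.inr (Or.inl (by omega))))
            · exact Or.inr (Or.inr (Or.inr (Or.inl (by omega))))
          · by_cases z : c4 ≤ 1
            · refine ⟨0, 5, 0, 1, 0, 0, by norm_num, by omega, by omega, by omega, by omega, by omega, by omega, by norm_num, ?_⟩
              intro n1 n2 n3 n4 n5 n6 q a1 a2 a3 a4 a5 a6 hh
              have z3 : n3 = 0 := by omega
              have z5 : n5 = 0 := by omega
              have z6 : n6 = 0 := by omega
              rcases hh with hh | hh | hh | hh | hh | hh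
              · omega
              · omega
              · omega
              · exact Or.inr (Or.inr (Or.inr (Or.inl (by omega))))
              · exact Or.inr (Or.inr (Or.inr (Or.inl (by omega))))
              · exact Or.inr (Or.inr (Or.inr (Or.inl (by omega))))
            · refine ⟨0, 3, 0, 2, 0, 0, by norm_num, by omega, by omega, by omega, by omega, by omega, by omega, by norm_num, ?_⟩
              intro n1 n2 n3 n4 n5 n6 q a1 a2 a3 a4 a5 a6 hh
              have z3 : n3 = 0 := by omega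
              have z5 : n5 = 0 := by omega
              have z6 : n6 = 0 := by omega
              rcases hh with hh | hh | hh | hh | hh | hh
              · omega
              · omega
              · omega
              · exact Or.inr (Or.inr (Or.inr (Or.inl (by omega))))
              · exact Or.inr (Or.inr (Or.inr (Or.inl (by omega))))
              · exact Or.inr (Or.inr (Or.inr (Or.inl (by omega))))
    · by_cases z : c2 ≤ 0
      · by_cases z : c4 ≤ 0
        · refine ⟨7, 0, 0, 0, 0, 0, by norm_num, by omega, by omega, by omega, by omega, by omega, by omega, by norm_num, ?_⟩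
          intro n1 n2 n3 n4 n5 n6 q a1 a2 a3 a4 a5 a6 hh
          have z3 : n3 = 0 := by omega
          have z5 : n5 = 0 := by omega
          have z6 : n6 = 0 := by omega
          rcases hh with hh | hh | hh | hh | hh | hh
          · exact Or.inl (by omega)
          · omega
          · exact Or.inl (by omega)
          · omega
          · exact Or.inl (by omega)
          · omega
        · by_cases z : 3 ≤ c1
          · refine ⟨3, 0, 0, 1, 0, 0, by norm_num, by omega, by omega, by omega, by omega, by omega, by omega, by norm_num, ?_⟩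
            intro n1 n2 n3 n4 n5 n6 q a1 a2 a3 a4 a5 a6 hh
            have z3 : n3 = 0 := by omega
            have z5 : n5 = 0 := by omega
            have z6 : n6 = 0 := by omega
            rcases hh with hh | hh | hh | hh | hh | hh
            · exact Or.inl (by omega)
            · exact Or.inr (Or.inl (by omega))
            · exact Or.inl (by omega)
            · omega
            · exact Or.inl (by omega)
            · exact Or.inr (Or.inl (by omega))
          · by_cases z : c1 ≤ 0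
            · refine ⟨0, 0, 0, 7, 0, 0, by norm_num, by omega, by omega, by omega, by omega, by omega, by omega, by norm_num, ?_⟩
              intro n1 n2 n3 n4 n5 n6 q a1 a2 a3 a4 a5 a6 hh
              have z3 : n3 = 0 := by omega
              have z5 : n5 = 0 := by omega
              have z6 : n6 = 0 := by omega
              rcases hh with hh | hh | hh | hh | hh | hh
              · omega
              · exact Or.inr (Or.inl (by omega))
              · exact Or.inr (Or.inl (by omega))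
              · omega
              · omega
              · exact Or.inr (Or.inl (by omega))
            · by_cases z : c1 ≤ 1
              · refine ⟨1, 0, 0, 5, 0, 0, by norm_num, by omega, by omega, by omega, by omega, by omega, by omega, by norm_num, ?_⟩
                intro n1 n2 n3 n4 n5 n6 q a1 a2 a3 a4 a5 a6 hh
                have z3 : n3 = 0 := by omega
                have z5 : n5 = 0 := by omega
                have z6 : n6 = 0 := by omega
                rcases hh with hh | hh | hh | hh | hh | hh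
                · omega
                · exact Or.inr (Or.inl (by omega))
                · exact Or.inr (Or.inl (by omega))
                · omega
                · omega
                · exact Or.inr (Or.inl (by omega))
              · refine ⟨2, 0, 0, 3, 0, 0, by norm_num, by omega, by omega, by omega, by omega, by omega, by omega, by norm_num, ?_⟩
                intro n1 n2 n3 n4 n5 n6 q a1 a2 a3 a4 a5 a6 hh
                have z3 : n3 = 0 := by omega
                have z5 : n5 = 0 := by omega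
                have z6 : n6 = 0 := by omega
                rcases hh with hh | hh | hh | hh | hh | hh
                · omega
                · exact Or.inr (Or.inl (by omega))
                · exact Or.inr (Or.inl (by omega))
                · omega
                · omega
                · exact Or.inr (Or.inl (by omega))
      · refine ⟨1, 1, 0, 1, 0, 0, by norm_num, by omega, by omega, by omega, by omega, by omega, by omega, by norm_num, ?_⟩
        intro n1 n2 n3 n4 n5 n6 q a1 a2 a3 a4 a5 a6 hh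
        have z3 : n3 = 0 := by omega
        have z5 : n5 = 0 := by omega
        have z6 : n6 = 0 := by omega
        rcases hh with hh | hh | hh | hh | hh | hh
        · exact Or.inl (by omega)
        · exact Or.inr (Or.inl (by omega))
        · exact Or.inl (by omega)
        · exact Or.inr (Or.inr (Or.inr (Or.inl (by omega))))
        · exact Or.inl (by omega)
        · exact Or.inr (Or.inl (by omega))

lemma pat7_123 {c1 c2 c3 c4 c5 c6 : ℕ} (hpos : 0 < c1 + c2 + c3 + c4 + c5 + c6)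
    (hmod : (1 * c1 + 2 * c2 + 3 * c3 + 4 * c4 + 5 * c5 + 6 * c6) % 7 = 0) (e6 : c6 = 0) (e5 : c5 = 0) (e4 : c4 = 0) :
    Rem7 c1 c2 c3 c4 c5 c6 := by
  have h : Rem7 c1 c2 c3 c4 c5 c6 := base7_123 (by omega) (by omega) e4 e5 e6
  exact h

lemma pat7_124 {c1 c2 c3 c4 c5 c6 : ℕ} (hpos : 0 < c1 + c2 + c3 + c4 + c5 + c6)
    (hmod : (1 * c1 + 2 * c2 + 3 * c3 + 4 * c4 + 5 * c5 + 6 * c6) % 7 = 0) (e6 : c6 = 0) (e5 : c5 = 0) (e3 : c3 = 0) :
    Rem7 c1 c2 c3 c4 c5 c6 := by
  have h : Rem7 c1 c2 c3 c4 c5 c6 := base7_124 (by omega) (by omega) e3 e5 e6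
  exact h

lemma pat7_153 {c1 c2 c3 c4 c5 c6 : ℕ} (hpos : 0 < c1 + c2 + c3 + c4 + c5 + c6)
    (hmod : (1 * c1 + 2 * c2 + 3 * c3 + 4 * c4 + 5 * c5 + 6 * c6) % 7 = 0) (e6 : c6 = 0) (e2 : c2 = 0) (e4 : c4 = 0) :
    Rem7 c1 c2 c3 c4 c5 c6 := by
  have h : Rem7 c5 c3 c1 c6 c4 c2 := base7_123 (by omega) (by omega) e6 e4 e2
  exact rot7 (rot7 (rot7 (rot7 (rot7 (h)))))

lemma pat7_154 {c1 c2 c3 c4 c5 c6 : ℕ} (hpos : 0 < c1 + c2 + c3 + c4 + c5 + c6)
    (hmod : (1 * c1 + 2 * c2 + 3 * c3 + 4 * c4 + 5 * c5 + 6 * c6) % 7 = 0) (e6 : c6 = 0) (e2 : c2 = 0) (e3 : c3 = 0) :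
    Rem7 c1 c2 c3 c4 c5 c6 := by
  have h : Rem7 c4 c1 c5 c2 c6 c3 := base7_123 (by omega) (by omega) e2 e6 e3
  exact rot7 (rot7 (rot7 (rot7 (h))))

lemma pat7_623 {c1 c2 c3 c4 c5 c6 : ℕ} (hpos : 0 < c1 + c2 + c3 + c4 + c5 + c6)
    (hmod : (1 * c1 + 2 * c2 + 3 * c3 + 4 * c4 + 5 * c5 + 6 * c6) % 7 = 0) (e1 : c1 = 0) (e5 : c5 = 0) (e4 : c4 = 0) :
    Rem7 c1 c2 c3 c4 c5 c6 := by
  have h : Rem7 c3 c6 c2 c5 c1 c4 := base7_123 (by omega) (by omega) e5 e1 e4
  exact rot7 (h)

lemma pat7_624 {c1 c2 c3 c4 c5 c6 : ℕ} (hpos : 0 < c1 + c2 + c3 + c4 + c5 + c6)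
    (hmod : (1 * c1 + 2 * c2 + 3 * c3 + 4 * c4 + 5 * c5 + 6 * c6) % 7 = 0) (e1 : c1 = 0) (e5 : c5 = 0) (e3 : c3 = 0) :
    Rem7 c1 c2 c3 c4 c5 c6 := by
  have h : Rem7 c2 c4 c6 c1 c3 c5 := base7_123 (by omega) (by omega) e1 e3 e5
  exact rot7 (rot7 (h))

lemma pat7_653 {c1 c2 c3 c4 c5 c6 : ℕ} (hpos : 0 < c1 + c2 + c3 + c4 + c5 + c6)
    (hmod : (1 * c1 + 2 * c2 + 3 * c3 + 4 * c4 + 5 * c5 + 6 * c6) % 7 = 0) (e1 : c1 = 0) (e2 : c2 = 0) (e4 : c4 = 0) :
    Rem7 c1 c2 c3 c4 c5 c6 := by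
  have h : Rem7 c3 c6 c2 c5 c1 c4 := base7_124 (by omega) (by omega) e2 e1 e4
  exact rot7 (h)

lemma pat7_654 {c1 c2 c3 c4 c5 c6 : ℕ} (hpos : 0 < c1 + c2 + c3 + c4 + c5 + c6)
    (hmod : (1 * c1 + 2 * c2 + 3 * c3 + 4 * c4 + 5 * c5 + 6 * c6) % 7 = 0) (e1 : c1 = 0) (e2 : c2 = 0) (e3 : c3 = 0) :
    Rem7 c1 c2 c3 c4 c5 c6 := by
  have h : Rem7 c6 c5 c4 c3 c2 c1 := base7_123 (by omega) (by omega) e3 e2 e1
  exact rot7 (rot7 (rot7 (h)))

lemma pair7_16 {c1 c2 c3 c4 c5 c6 : ℕ} (h : 1 ≤ c1 ∧ 1 ≤ c6) : Rem7 c1 c2 c3 c4 c5 c6 := by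
  refine ⟨1, 0, 0, 0, 0, 1, by norm_num, by omega, by omega, by omega, by omega, by omega, by omega, by norm_num, ?_⟩
  intro n1 n2 n3 n4 n5 n6 q a1 a2 a3 a4 a5 a6 hh
  rcases hh with hh | hh | hh | hh | hh | hh
  · exact Or.inl (by omega)
  · exact Or.inr (Or.inl (by omega))
  · exact Or.inr (Or.inr (Or.inl (by omega)))
  · exact Or.inr (Or.inr (Or.inr (Or.inl (by omega))))
  · exact Or.inr (Or.inr (Or.inr (Or.inr (Or.inl (by omega)))))
  · exact Or.inr (Or.inr (Or.inr (Or.inr (Or.inr ((by omega))))))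

lemma pair7_25 {c1 c2 c3 c4 c5 c6 : ℕ} (h : 1 ≤ c2 ∧ 1 ≤ c5) : Rem7 c1 c2 c3 c4 c5 c6 := by
  refine ⟨0, 1, 0, 0, 1, 0, by norm_num, by omega, by omega, by omega, by omega, by omega, by omega, by norm_num, ?_⟩
  intro n1 n2 n3 n4 n5 n6 q a1 a2 a3 a4 a5 a6 hh
  rcases hh with hh | hh | hh | hh | hh | hh
  · exact Or.inl (by omega)
  · exact Or.inr (Or.inl (by omega))
  · exact Or.inr (Or.inr (Or.inl (by omega)))
  · exact Or.inr (Or.inr (Or.inr (Or.inl (by omega))))
  · exact Or.inr (Or.inr (Or.inr (Or.inr (Or.inl (by omega)))))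
  · exact Or.inr (Or.inr (Or.inr (Or.inr (Or.inr ((by omega))))))

lemma pair7_34 {c1 c2 c3 c4 c5 c6 : ℕ} (h : 1 ≤ c3 ∧ 1 ≤ c4) : Rem7 c1 c2 c3 c4 c5 c6 := by
  refine ⟨0, 0, 1, 1, 0, 0, by norm_num, by omega, by omega, by omega, by omega, by omega, by omega, by norm_num, ?_⟩
  intro n1 n2 n3 n4 n5 n6 q a1 a2 a3 a4 a5 a6 hh
  rcases hh with hh | hh | hh | hh | hh | hh
  · exact Or.inl (by omega)
  · exact Or.inr (Or.inl (by omega))
  · exact Or.inr (Or.inr (Or.inl (by omega)))
  · exact Or.inr (Or.inr (Or.inr (Or.inl (by omega))))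
  · exact Or.inr (Or.inr (Or.inr (Or.inr (Or.inl (by omega)))))
  · exact Or.inr (Or.inr (Or.inr (Or.inr (Or.inr ((by omega))))))

theorem rem7 (c1 c2 c3 c4 c5 c6 : ℕ) (hpos : 0 < c1 + c2 + c3 + c4 + c5 + c6)
    (hmod : (1 * c1 + 2 * c2 + 3 * c3 + 4 * c4 + 5 * c5 + 6 * c6) % 7 = 0) : Rem7 c1 c2 c3 c4 c5 c6 := by
  by_cases p1 : 1 ≤ c1 ∧ 1 ≤ c6
  · exact pair7_16 p1
  by_cases p2 : 1 ≤ c2 ∧ 1 ≤ c5
  · exact pair7_25 p2
  by_cases p3 : 1 ≤ c3 ∧ 1 ≤ c4
  · exact pair7_34 p3
  have q1 : c6 = 0 ∨ c1 = 0 := by omega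
  have q2 : c5 = 0 ∨ c2 = 0 := by omega
  have q3 : c4 = 0 ∨ c3 = 0 := by omega
  rcases q1 with e1 | e1 <;> rcases q2 with e2 | e2 <;> rcases q3 with e3 | e3
  · exact pat7_123 hpos hmod e1 e2 e3
  · exact pat7_124 hpos hmod e1 e2 e3
  · exact pat7_153 hpos hmod e1 e2 e3
  · exact pat7_154 hpos hmod e1 e2 e3
  · exact pat7_623 hpos hmod e1 e2 e3
  · exact pat7_624 hpos hmod e1 e2 e3
  · exact pat7_653 hpos hmod e1 e2 e3
  · exact pat7_654 hpos hmod e1 e2 e3

theorem pp7 (b : ι → ZMod 7) (S : Finset ι) (h0 : ∀ i ∈ S, b i ≠ 0) (hS : ∑ i ∈ S, b i = 0) :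
    PP b S := by
  induction hk : #S using Nat.strong_induction_on generalizing S with
  | _ k ih =>
  have IH : ∀ S' : Finset ι, S' ⊆ S → #S' < #S → ∑ i ∈ S', b i = 0 → PP b S' := by
    intro S' hS' hc hz
    exact ih _ (by rw [← hk]; exact hc) S' (fun i hi => h0 i (hS' hi)) hz rfl
  have hc0 : cnt b S 0 = 0 := by
    rw [cnt, card_eq_zero, filter_eq_empty_iff]
    exact fun i hi => h0 i hi
  rcases S.eq_empty_or_nonempty with hSe | hne
  · subst hSe
    exact ⟨0, Split.zero b, 1, isUnit_one, by simp [wt]⟩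
  have hpos : 0 < cnt b S 1 + cnt b S 2 + cnt b S 3 + cnt b S 4 + cnt b S 5 + cnt b S 6 := by
    obtain ⟨i, hi⟩ := hne
    have hbi : b i = 1 ∨ b i = 2 ∨ b i = 3 ∨ b i = 4 ∨ b i = 5 ∨ b i = 6 := by
      have h := h0 i hi
      revert h
      generalize b i = y
      revert y
      decide
    have hcp : ∀ x, b i = x → 0 < cnt b S x := fun x hx => card_pos.2 ⟨i, mem_filter.2 ⟨hi, hx⟩⟩
    rcases hbi with h | h | h | h | h | h <;> (have := hcp _ h; omega)
  have hmod : (1 * cnt b S 1 + 2 * cnt b S 2 + 3 * cnt b S 3 + 4 * cnt b S 4 + 5 * cnt b S 5 + 6 * cnt b S 6) % 7 = 0 := by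
    have hsum' : ∀ F : ZMod 7 → ZMod 7, ∑ x, F x = F 0 + F 1 + F 2 + F 3 + F 4 + F 5 + F 6 := fun F => Fin.sum_univ_seven F
    have h := hS
    rw [sum_eq, hsum'] at h
    have h' : ((1 * cnt b S 1 + 2 * cnt b S 2 + 3 * cnt b S 3 + 4 * cnt b S 4 + 5 * cnt b S 5 + 6 * cnt b S 6 : ℕ) : ZMod 7) = 0 := by
      refine Eq.trans ?_ h
      push_cast
      rw [hc0]
      push_cast
      ring
    exact Nat.mod_eq_zero_of_dvd ((ZMod.natCast_eq_zero_iff _ 7).1 h')
  obtain ⟨t1, t2, t3, t4, t5, t6, k1, l1, l2, l3, l4, l5, l6, k2, k3⟩ := rem7 _ _ _ _ _ _ hpos hmod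
  exact step7 b S hS hc0 IH t1 t2 t3 t4 t5 t6 k1 l1 l2 l3 l4 l5 l6 k2 k3

end Pool.Agent.T2H37.CI
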