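import Pool.Agent.T2H37.FK.Defs

/-!
# Zero-cycles on complete intersections of diagonal hypersurfaces

The definitions for the theorem on zero-cycles on complete intersections of diagonal hypersurfaces.
-/

set_option autoImplicit false

namespace Pool.Agent.T2H37.CI

open MvPolynomial Pool.Agent.T2H37.FK
open scoped LinearAlgebra.Projectivization

variable {𝕜 : Type*} [Field 𝕜] {r N : ℕ}

/-- The points of the intersection `X` of the `r` diagonal hypersurfaces `∑ i, A j i * x i ^ m = 0`
in the projective space of dimension `N - 1`. -/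
def Pts (A : Matrix (Fin r) (Fin N) 𝕜) (m : ℕ) : Type _ :=
  {p : ℙ 𝕜 (Fin N → 𝕜) // ∀ j, ∑ i, A j i * p.rep i ^ m = 0}

/-- Any `r` columns of `A` are linearly independent: the intersection `X` is smooth, and it is
a complete intersection. -/
def GeneralPosition (A : Matrix (Fin r) (Fin N) 𝕜) : Prop :=
  ∀ T : Finset (Fin N), T.card = r → LinearIndependent 𝕜 fun i : T => fun j => A j i

/-- `F` is a Chow form of the effective zero-cycle `[p 0] + ... + [p (d - 1)]`: up to a nonzero
scalar it is the product of the linear forms whose coefficient vectors are the homogeneous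
coordinates of the points of the cycle. -/
def IsChowForm {A : Matrix (Fin r) (Fin N) 𝕜} {m d : ℕ} (p : Fin d → Pts A m)
    (F : MvPolynomial (Fin N) 𝕜) : Prop :=
  ∃ c : 𝕜, c ≠ 0 ∧ F = C c * ∏ k, lin (p k).1.rep

/-- Two effective zero-cycles of degree `d` on `X` are joined by a rational curve in the `d`-th
symmetric power: there is a polynomial family, parametrised by the affine line, of Chow forms of
effective zero-cycles of degree `d` on `X`, with the first cycle at `0` and the second one at `1`. -/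
def Joined {A : Matrix (Fin r) (Fin N) 𝕜} {m d : ℕ} (p q : Fin d → Pts A m) : Prop :=
  ∃ F : Polynomial (MvPolynomial (Fin N) 𝕜),
    (∀ t : 𝕜, ∃ s : Fin d → Pts A m, IsChowForm s (F.eval (C t))) ∧
      IsChowForm p (F.eval (C 0)) ∧ IsChowForm q (F.eval (C 1))

/-- The group of zero-cycles rationally equivalent to zero. -/
noncomputable def RatEquivZero (A : Matrix (Fin r) (Fin N) 𝕜) (m : ℕ) :
    AddSubgroup (Pts A m →₀ ℤ) :=
  AddSubgroup.closure {z | ∃ (d : ℕ) (p q : Fin d → Pts A m), Joined p q ∧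
    z = ∑ k, Finsupp.single (p k) 1 - ∑ k, Finsupp.single (q k) 1}

/-- The group of the diagonal matrices whose entries are `m`-th roots of unity. -/
def Diag (𝕜 : Type*) [Field 𝕜] (N m : ℕ) : Type _ := {g : Fin N → 𝕜 // ∀ i, g i ^ m = 1}

/-- a vector satisfies the equations iff the coordinates of the point do -/
lemma rep_mk (A : Matrix (Fin r) (Fin N) 𝕜) (m : ℕ) (v : Fin N → 𝕜) (hv : v ≠ 0) :
    (∀ j, ∑ i, A j i * (Projectivization.mk 𝕜 v hv).rep i ^ m = 0) ↔
      ∀ j, ∑ i, A j i * v i ^ m = 0 := by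
  obtain ⟨a, ha⟩ := Projectivization.exists_smul_eq_mk_rep 𝕜 v hv
  refine forall_congr' fun j => ?_
  have h1 : ∑ i, A j i * (Projectivization.mk 𝕜 v hv).rep i ^ m =
      (a : 𝕜) ^ m * ∑ i, A j i * v i ^ m := by
    rw [Finset.mul_sum]
    refine Finset.sum_congr rfl fun i _ => ?_
    rw [← ha]
    change _ * ((a : 𝕜) * v i) ^ m = _
    ring
  rw [h1, mul_eq_zero]
  constructor
  · rintro (h | h)
    · exact absurd h (pow_ne_zero _ a.ne_zero)
    · exact h
  · exact Or.inr

lemma diag_ne_zero {m : ℕ} (hm : m ≠ 0) (g : Diag 𝕜 N m) {v : Fin N → 𝕜} (hv : v ≠ 0) :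
    (fun i => g.1 i * v i) ≠ 0 := by
  intro h
  apply hv
  funext i
  have h1 := congrFun h i
  refine (mul_eq_zero.1 h1).resolve_left fun h2 => ?_
  have h3 := g.2 i
  rw [h2, zero_pow hm] at h3
  exact zero_ne_one h3

lemma diag_eq {A : Matrix (Fin r) (Fin N) 𝕜} {m : ℕ} (g : Diag 𝕜 N m) {v : Fin N → 𝕜}
    (hv : ∀ j, ∑ i, A j i * v i ^ m = 0) (j : Fin r) : ∑ i, A j i * (g.1 i * v i) ^ m = 0 := by
  rw [← hv j]
  refine Finset.sum_congr rfl fun i _ => ?_
  rw [mul_pow, g.2, one_mul]

/-- The action of the diagonal matrices on the points of `X`. -/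
noncomputable def act {A : Matrix (Fin r) (Fin N) 𝕜} {m : ℕ} [NeZero m] (g : Diag 𝕜 N m)
    (x : Pts A m) : Pts A m :=
  ⟨Projectivization.mk 𝕜 (fun i => g.1 i * x.1.rep i)
    (diag_ne_zero (NeZero.ne m) g x.1.rep_nonzero), by
    rw [rep_mk]
    exact diag_eq g x.2⟩

end Pool.Agent.T2H37.CI
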