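import Pool.Agent.T2H37.CI.Vanish
import Pool.Agent.T2H37.CI.Comb2
import Pool.Agent.T2H37.CI.Comb3
import Pool.Agent.T2H37.CI.Comb4
import Pool.Agent.T2H37.CI.Comb5
import Pool.Agent.T2H37.CI.Comb7

/-!
# The theorem on zero-cycles on complete intersections of diagonal hypersurfaces
-/

set_option autoImplicit false
set_option linter.unusedSectionVars false
set_option linter.unusedSimpArgs false

namespace Pool.Agent.T2H37.CI

open MvPolynomial Finset Pool.Agent.T2H37.FK

lemma ppAll {ι : Type*} [DecidableEq ι] (m : ℕ) (hm : m = 2 ∨ m = 3 ∨ m = 4 ∨ m = 5 ∨ m = 7)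
    (b : ι → ZMod m) (S : Finset ι) (h0 : ∀ i ∈ S, b i ≠ 0) (hS : ∑ i ∈ S, b i = 0) : PP b S := by
  rcases hm with rfl | rfl | rfl | rfl | rfl
  · exact pp2 b S h0 hS
  · exact pp3 b S h0 hS
  · exact pp4 b S h0 hS
  · exact pp5 b S h0 hS
  · exact pp7 b S h0 hS

variable {𝕜 : Type*} [Field 𝕜] [IsAlgClosed 𝕜] [CharZero 𝕜]

variable {r N m : ℕ} [NeZero m] {A : Matrix (Fin r) (Fin N) 𝕜} {f : (Fin N → 𝕜) → 𝕜}

/-- split characters -/
lemma GoodY.comp_split (hf : GoodY A m f) {α : Fin N → ZMod m} (hα : α ≠ 0) {q : ℕ}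
    (hq : Split α (univ.filter fun i => α i ≠ 0) q) (hcard : r + 1 ≤ q + #{i | α i = 0})
    {v : Fin N → 𝕜} (hv : OnY A m v) : comp f α v = 0 := by
  classical
  by_cases hz : ∃ i, α i ≠ 0 ∧ v i = 0
  · obtain ⟨i, hi, hvi⟩ := hz
    exact comp_coord_zero hi hvi
  push Not at hz
  obtain ⟨g, hg1, hg2⟩ := hq
  obtain ⟨l₀, hl₀⟩ : ∃ l, α l ≠ 0 := by
    by_contra hcon
    push Not at hcon
    exact hα (funext hcon)
  set blk : Fin N → Fin q ⊕ {i // α i = 0} := fun l =>
    if h : α l = 0 then Sum.inr ⟨l, h⟩ else Sum.inl ⟨g l, hg1 l (mem_filter.2 ⟨mem_univ _, h⟩)⟩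
    with hblk
  have hb1 : ∀ l (h : α l = 0), blk l = Sum.inr ⟨l, h⟩ := fun l h => by simp only [hblk, dif_pos h]
  have hb2 : ∀ l (h : α l ≠ 0), blk l = Sum.inl ⟨g l, hg1 l (mem_filter.2 ⟨mem_univ _, h⟩)⟩ :=
    fun l h => by simp only [hblk, dif_neg h]
  refine hf.comp_blocks (blk := blk) ?_ ?_ hl₀ ?_ ?_ hv hz
  · rintro (⟨B, hB⟩ | ⟨l, hl⟩)
    · obtain ⟨⟨i, hi, hgi⟩, _⟩ := hg2 B hB
      refine ⟨i, ?_⟩
      rw [hb2 i (mem_filter.1 hi).2]
      congr 1
      exact Fin.ext hgi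
    · exact ⟨l, hb1 l hl⟩
  · rintro (⟨B, hB⟩ | ⟨l, hl⟩)
    · refine Eq.trans (sum_congr ?_ fun _ _ => rfl) (hg2 B hB).2
      ext i
      simp only [mem_filter, mem_univ, true_and]
      constructor
      · intro h
        by_cases hi : α i = 0
        · rw [hb1 i hi] at h
          exact absurd h (by simp)
        · rw [hb2 i hi] at h
          refine ⟨hi, ?_⟩
          have h2 := Sum.inl.inj h
          exact congrArg Fin.val h2
      · rintro ⟨hi, h⟩
        rw [hb2 i hi]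
        congr 1
        exact Fin.ext h
    · refine sum_eq_zero fun i hi => ?_
      rw [mem_filter] at hi
      by_contra h
      rw [hb2 i h] at hi
      exact absurd hi.2 (by simp)
  · intro l l' hl h
    by_cases hl' : α l' = 0
    · rw [hb1 l hl, hb1 l' hl'] at h
      exact congrArg Subtype.val (Sum.inr.inj h)
    · rw [hb1 l hl, hb2 l' hl'] at h
      exact absurd h (by simp)
  · rw [Fintype.card_sum, Fintype.card_fin, Fintype.card_subtype]
    exact hcard

/-- a point of the cone all of whose coordinates are nonzero -/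
lemma exists_full (hA : GeneralPosition A) (hN : r + 1 ≤ N) :
    ∃ v : Fin N → 𝕜, (∀ i, v i ≠ 0) ∧ ∀ j, ∑ i, A j i * v i ^ m = 0 := by
  classical
  have h1 : ∀ i : Fin N, ∃ y : Fin N → 𝕜, y i ≠ 0 ∧ ∀ j, ∑ l, A j l * y l = 0 := by
    intro i
    obtain ⟨T, hT, hTc⟩ := exists_subset_card_eq (s := (univ.erase i : Finset (Fin N))) (n := r)
      (by rw [card_erase_of_mem (mem_univ _), card_univ, Fintype.card_fin]; omega)
    have h2 := hA T hTc
    have hspan : Submodule.span 𝕜 (Set.range fun l : T => fun j => A j l) = ⊤ := by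
      refine h2.span_eq_top_of_card_eq_finrank' ?_
      rw [Module.finrank_fin_fun, Fintype.card_coe, hTc]
    have hmem : (fun j => -A j i) ∈ Submodule.span 𝕜 (Set.range fun l : T => fun j => A j l) := by
      rw [hspan]
      exact Submodule.mem_top
    rw [Submodule.mem_span_range_iff_exists_fun] at hmem
    obtain ⟨c, hc⟩ := hmem
    have hiT : i ∉ T := fun h => (mem_erase.1 (hT h)).1 rfl
    refine ⟨fun l => if l = i then 1 else if h : l ∈ T then c ⟨l, h⟩ else 0, ?_, ?_⟩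
    · simp
    · intro j
      have h3 := congrFun hc j
      rw [Finset.sum_apply] at h3
      have h4 : ∀ l, A j l * (if l = i then 1 else if h : l ∈ T then c ⟨l, h⟩ else 0) =
          (if l = i then A j i else 0) + if h : l ∈ T then c ⟨l, h⟩ * A j l else 0 := by
        intro l
        by_cases hl : l = i
        · subst hl
          simp [hiT]
        · by_cases hlT : l ∈ T
          · simp [hl, hlT, mul_comm]
          · simp [hl, hlT]
      rw [sum_congr rfl fun l _ => h4 l, sum_add_distrib, sum_ite_eq' univ i, if_pos (mem_univ _)]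
      have h5 : ∑ l, (if h : l ∈ T then c ⟨l, h⟩ * A j l else 0) =
          ∑ l : T, (c l • fun j => A j l.1) j := by
        rw [← sum_subset (subset_univ T)
          (f := fun l => if h : l ∈ T then c ⟨l, h⟩ * A j l else 0)
          (fun l _ hl => dif_neg hl), ← sum_coe_sort T]
        refine sum_congr rfl fun l _ => ?_
        rw [dif_pos l.2]
        rfl
      rw [h5, h3]
      ring
  choose y hy hyA using h1
  have h2 : (∏ i, ∑ k, C (y k i) * X k : MvPolynomial (Fin N) 𝕜) ≠ 0 := by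
    rw [prod_ne_zero_iff]
    intro i _ h
    have h3 := congrArg (eval (Pi.single i (1 : 𝕜))) h
    rw [map_zero, map_sum, sum_eq_single i] at h3
    · rw [map_mul, eval_C, eval_X, Pi.single_eq_same, mul_one] at h3
      exact hy i h3
    · intro k _ hk
      rw [map_mul, eval_X, Pi.single_eq_of_ne hk, mul_zero]
    · intro h
      exact absurd (mem_univ _) h
  obtain ⟨c, hc⟩ : ∃ c, eval c (∏ i, ∑ k, C (y k i) * X k : MvPolynomial (Fin N) 𝕜) ≠ 0 := by
    by_contra hcon
    push Not at hcon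
    exact h2 (MvPolynomial.funext fun c => by rw [hcon c, map_zero])
  rw [map_prod, prod_ne_zero_iff] at hc
  choose v hv using fun i => IsAlgClosed.exists_pow_nat_eq (∑ k, y k i * c k) (NeZero.pos m)
  refine ⟨v, ?_, ?_⟩
  · intro i h
    apply hc i (mem_univ i)
    have h3 := hv i
    rw [h, zero_pow (NeZero.ne m)] at h3
    rw [map_sum]
    simp only [map_mul, eval_C, eval_X]
    exact h3.symm
  · intro j
    simp only [hv, mul_sum]
    rw [sum_comm]
    refine sum_eq_zero fun k _ => ?_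
    have h3 : ∑ l, A j l * (y k l * c k) = (∑ l, A j l * y k l) * c k := by
      rw [sum_mul]
      refine sum_congr rfl fun l _ => ?_
      ring
    rw [h3, hyA, zero_mul]

/-- the exponents of a diagonal matrix -/
noncomputable def ex (g : Diag 𝕜 N m) : Fin N → ZMod m := fun i => (exists_e (g.2 i)).choose

lemma ex_spec (g : Diag 𝕜 N m) (i : Fin N) : e 𝕜 (ex g i) = g.1 i := (exists_e (g.2 i)).choose_spec

/-- the characters that do not split are killed by the combination -/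
lemma sum_char_zero (hA : GeneralPosition A) (hN : r + 1 ≤ N) (a : Diag 𝕜 N m →₀ ℤ)
    (ha : ∀ (d : ℕ) (P : MvPolynomial (Fin N) 𝕜), d + N = r * m → P.IsHomogeneous d →
      ∀ v : Fin N → 𝕜, (∀ j, ∑ i, A j i * v i ^ m = 0) →
        (a.sum fun g c => (c : 𝕜) * ((∏ i, g.1 i) * eval (fun i => g.1 i * v i) P)) = 0)
    {α : Fin N → ZMod m} (hα0 : ∑ i, α i = 0) {t : ZMod m} (ht : IsUnit t) {q : ℕ}
    (hq : q + #{i | α i = 0} ≤ r)
    (hw : ∑ i with α i ≠ 0, (t * α i).val ≤ q * m) :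
    ∑ g ∈ a.support, (a g : 𝕜) * e 𝕜 (pr α (ex g)) = 0 := by
  classical
  obtain ⟨v, hv, hvA⟩ := exists_full (m := m) hA hN
  -- the exponents
  set b : Fin N → ℕ := fun i => if α i = 0 then m else (t * α i).val with hb
  have hbpos : ∀ i, 1 ≤ b i := by
    intro i
    simp only [hb]
    split_ifs with h
    · exact NeZero.pos m
    · rw [Nat.one_le_iff_ne_zero, Ne, ZMod.val_eq_zero]
      intro h1
      exact h ((ht.mul_right_eq_zero).1 h1)
  have hbmod : ∀ i, (b i : ZMod m) = t * α i := by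
    intro i
    simp only [hb]
    split_ifs with h
    · rw [h, mul_zero, CharP.cast_eq_zero]
    · rw [ZMod.natCast_zmod_val]
  have hbsum : ∑ i, b i ≤ r * m := by
    have h1 : ∑ i, b i = ∑ i with α i = 0, b i + ∑ i with ¬ α i = 0, b i :=
      (sum_filter_add_sum_filter_not _ _ _).symm
    have h2 : ∑ i with α i = 0, b i = #{i | α i = 0} * m := by
      rw [← smul_eq_mul, ← sum_const]
      refine sum_congr rfl fun i hi => ?_
      simp only [hb, (mem_filter.1 hi).2, if_true]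
    have h3 : ∑ i with ¬ α i = 0, b i = ∑ i with α i ≠ 0, (t * α i).val := by
      refine sum_congr rfl fun i hi => ?_
      simp only [hb, (mem_filter.1 hi).2, if_false]
    rw [h1, h2, h3]
    have h4 : (q + #{i | α i = 0}) * m ≤ r * m := Nat.mul_le_mul_right _ hq
    rw [add_mul] at h4
    omega
  have hbdvd : m ∣ ∑ i, b i := by
    rw [← ZMod.natCast_eq_zero_iff]
    push_cast
    simp only [hbmod]
    rw [← mul_sum, hα0, mul_zero]
  obtain ⟨s, hs⟩ := hbdvd
  have hsr : s ≤ r := by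
    have h1 : m * s ≤ m * r := by rw [← hs, mul_comm m r]; exact hbsum
    exact Nat.le_of_mul_le_mul_left h1 (NeZero.pos m)
  have hN0 : 0 < N := by omega
  set i₀ : Fin N := ⟨0, hN0⟩ with hi₀
  set b' : Fin N → ℕ := fun i => b i + if i = i₀ then m * (r - s) else 0 with hb'
  have hb'sum : ∑ i, b' i = r * m := by
    rw [hb', sum_add_distrib, hs, sum_ite_eq' univ i₀, if_pos (mem_univ _), ← mul_add]
    rw [Nat.add_sub_cancel' hsr, mul_comm]
  have hb'mod : ∀ i, (b' i : ZMod m) = t * α i := by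
    intro i
    simp only [hb']
    split_ifs
    · push_cast
      rw [hbmod, CharP.cast_eq_zero, zero_mul, add_zero]
    · rw [add_zero, hbmod]
  have hb'pos : ∀ i, 1 ≤ b' i := fun i => (hbpos i).trans (Nat.le_add_right _ _)
  have hdeg : ∑ i, (b' i - 1) + N = r * m := by
    rw [← hb'sum]
    have h1 : ∑ i, b' i = ∑ i, ((b' i - 1) + 1) :=
      sum_congr rfl fun i _ => (Nat.sub_add_cancel (hb'pos i)).symm
    rw [h1, sum_add_distrib, sum_const, card_univ, Fintype.card_fin, smul_eq_mul, mul_one]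
  have hM : (∏ l, (X l : MvPolynomial (Fin N) 𝕜) ^ (b' l - 1)).IsHomogeneous (∑ l, (b' l - 1)) := by
    refine IsHomogeneous.prod _ _ _ fun l _ => ?_
    have h2 := (isHomogeneous_X 𝕜 l).pow (b' l - 1)
    rwa [one_mul] at h2
  have h1 := ha _ _ hdeg hM v hvA
  have h2 : ∀ g : Diag 𝕜 N m, (∏ i, g.1 i) * eval (fun i => g.1 i * v i)
      (∏ l, (X l : MvPolynomial (Fin N) 𝕜) ^ (b' l - 1)) =
        e 𝕜 (t * pr α (ex g)) * ∏ i, v i ^ (b' i - 1) := by
    intro g
    rw [map_prod]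
    simp only [map_pow, eval_X, mul_pow]
    rw [prod_mul_distrib, ← mul_assoc, ← prod_mul_distrib]
    congr 1
    rw [pr, mul_sum, e_sum]
    refine prod_congr rfl fun l _ => ?_
    rw [← pow_succ', Nat.sub_add_cancel (hb'pos l), ← ex_spec g l, e_def, e_def,
      ← AddChar.map_nsmul_eq_pow, nsmul_eq_mul, hb'mod, mul_assoc]
  rw [Finsupp.sum] at h1
  simp only [h2, ← mul_assoc] at h1
  rw [← sum_mul] at h1
  have h3 := (mul_eq_zero.1 h1).resolve_right
    (prod_ne_zero_iff.2 fun i _ => pow_ne_zero _ (hv i))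
  obtain ⟨u, rfl⟩ := ht
  exact galois a.support (fun g => a g) (fun g => pr α (ex g)) u h3

/-- the combinations are constant -/
theorem GoodY.const (hm : m = 2 ∨ m = 3 ∨ m = 4 ∨ m = 5 ∨ m = 7) (hf : GoodY A m f)
    (hA : GeneralPosition A) (hN : r + 1 ≤ N) (a : Diag 𝕜 N m →₀ ℤ)
    (ha : ∀ (d : ℕ) (P : MvPolynomial (Fin N) 𝕜), d + N = r * m → P.IsHomogeneous d →
      ∀ v : Fin N → 𝕜, (∀ j, ∑ i, A j i * v i ^ m = 0) →
        (a.sum fun g c => (c : 𝕜) * ((∏ i, g.1 i) * eval (fun i => g.1 i * v i) P)) = 0) :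
    ∃ V : 𝕜, ∀ v, OnY A m v → ∑ g ∈ a.support, (a g : 𝕜) * f (dg (ex g) v) = V := by
  classical
  by_cases hne : ∃ v₀, OnY A m v₀
  swap
  · push Not at hne
    exact ⟨0, fun v hv => absurd hv (hne v)⟩
  obtain ⟨v₀, hv₀⟩ := hne
  have hα : ∀ α : Fin N → ZMod m, α ≠ 0 → ∀ v, OnY A m v →
      ∑ g ∈ a.support, (a g : 𝕜) * comp f α (dg (ex g) v) = 0 := by
    intro α hα0 v hv
    by_cases h0 : ∑ i, α i = 0
    · have hS : ∑ i with α i ≠ 0, α i = 0 := by
        rw [sum_filter_ne_zero, h0]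
      obtain ⟨q, hq, t, ht, hw⟩ := ppAll m hm α (univ.filter fun i => α i ≠ 0)
        (fun i hi => (mem_filter.1 hi).2) hS
      by_cases hc : r + 1 ≤ q + #{i | α i = 0}
      · refine sum_eq_zero fun g _ => ?_
        rw [hf.comp_split hα0 hq hc (onY_dg _ hv), mul_zero]
      · have h1 := sum_char_zero hA hN a ha h0 ht (q := q) (by omega) hw
        have h2 : ∀ g, (a g : 𝕜) * comp f α (dg (ex g) v) =
            ((a g : 𝕜) * e 𝕜 (pr α (ex g))) * comp f α v := by
          intro g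
          rw [comp_dg, mul_assoc]
        rw [sum_congr rfl fun g _ => h2 g, ← sum_mul, h1, zero_mul]
    · refine sum_eq_zero fun g _ => ?_
      rw [hf.comp_sum_ne h0 (onY_dg _ hv), mul_zero]
  refine ⟨(∑ g ∈ a.support, (a g : 𝕜)) * comp f (0 : Fin N → ZMod m) v₀ / (m : 𝕜) ^ N,
    fun v hv => ?_⟩
  have h1 : ∑ α : Fin N → ZMod m, ∑ g ∈ a.support, (a g : 𝕜) * comp f α (dg (ex g) v) =
      (m : 𝕜) ^ N * ∑ g ∈ a.support, (a g : 𝕜) * f (dg (ex g) v) := by
    rw [sum_comm]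
    simp only [← mul_sum, Pool.Agent.T2H37.FK.sum_comp]
    rw [mul_sum]
    refine sum_congr rfl fun g _ => ?_
    ring
  have h2 : ∑ α : Fin N → ZMod m, ∑ g ∈ a.support, (a g : 𝕜) * comp f α (dg (ex g) v) =
      (∑ g ∈ a.support, (a g : 𝕜)) * comp f (0 : Fin N → ZMod m) v₀ := by
    rw [sum_eq_single 0]
    · rw [sum_mul]
      refine sum_congr rfl fun g _ => ?_
      rw [hf.comp_zero (onY_dg _ hv) hv₀]
    · intro α _ hα0
      exact hα α hα0 v hv
    · intro h
      exact absurd (mem_univ _) h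
  rw [h1] at h2
  rw [← h2, mul_div_cancel_left₀ _ (pow_ne_zero _ m_ne_zero)]

/-- the point with given coordinates -/
noncomputable def mkY (v : Fin N → 𝕜) (h : OnY A m v) : Pts A m :=
  ⟨Projectivization.mk 𝕜 v h.1, (rep_mk A m v h.1).2 h.2⟩

open Classical in
/-- the function on vectors defined by a function on the points -/
noncomputable def extY (φ : Pts A m → 𝕜) (v : Fin N → 𝕜) : 𝕜 :=
  if h : OnY A m v then φ (mkY v h) else 0

lemma extY_of (φ : Pts A m → 𝕜) {v : Fin N → 𝕜} (h : OnY A m v) : extY φ v = φ (mkY v h) :=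
  dif_pos h

lemma onY_smul {c : 𝕜} (hc : c ≠ 0) {v : Fin N → 𝕜} (h : OnY A m v) : OnY A m (c • v) := by
  refine ⟨smul_ne_zero hc h.1, fun j => ?_⟩
  have h1 : ∑ i, A j i * (c • v) i ^ m = c ^ m * ∑ i, A j i * v i ^ m := by
    rw [mul_sum]
    refine sum_congr rfl fun i _ => ?_
    rw [Pi.smul_apply, smul_eq_mul]
    ring
  rw [h1, h.2, mul_zero]

lemma mkY_smul {c : 𝕜} (hc : c ≠ 0) {v : Fin N → 𝕜} (h : OnY A m v) :
    mkY (c • v) (onY_smul hc h) = mkY v h := by
  apply Subtype.ext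
  exact (Projectivization.mk_eq_mk_iff' 𝕜 _ _ _ _).2 ⟨c, rfl⟩

lemma onY_rep (x : Pts A m) : OnY A m x.1.rep := ⟨x.1.rep_nonzero, x.2⟩

lemma rep_to_chowY {d : ℕ} {F : MvPolynomial (Fin N) 𝕜} {s : Multiset (Fin N → 𝕜)}
    (h : RepY A m d F s) : ∃ p : Fin d → Pts A m, IsChowForm p F ∧
      ∀ φ : Pts A m → 𝕜, (s.map (extY φ)).sum = ∑ k, φ (p k) := by
  obtain ⟨hs, hX, c, hc, hF⟩ := h
  obtain ⟨L, rfl⟩ := Quotient.exists_rep s
  change L.length = d at hs
  subst hs
  have hX' : ∀ k : Fin L.length, OnY A m (L[k.1]) := fun k => hX _ (List.getElem_mem k.2)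
  refine ⟨fun k => mkY (L[k.1]) (hX' k), ?_, ?_⟩
  · have h1 : ∀ k : Fin L.length, ∃ a : 𝕜, a ≠ 0 ∧
        lin (L[k.1]) = C a * lin (mkY (L[k.1]) (hX' k)).1.rep := by
      intro k
      obtain ⟨a, ha⟩ := Projectivization.exists_smul_eq_mk_rep 𝕜 (L[k.1]) (hX' k).1
      refine ⟨(a⁻¹ : 𝕜ˣ), (a⁻¹ : 𝕜ˣ).ne_zero, ?_⟩
      change _ = _ * lin (Projectivization.mk 𝕜 (L[k.1]) (hX' k).1).rep
      rw [← ha, ← lin_smul]
      change _ = lin (((a⁻¹ : 𝕜ˣ) : 𝕜) • ((a : 𝕜) • L[k.1]))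
      rw [smul_smul, Units.inv_mul, one_smul]
    choose a ha0 ha using h1
    refine ⟨c * ∏ k, a k, mul_ne_zero hc (prod_ne_zero_iff.2 fun k _ => ha0 k), ?_⟩
    rw [hF]
    change C c * (L.map lin).prod = _
    rw [← Fin.prod_univ_fun_getElem, C_mul, mul_assoc, map_prod, ← prod_mul_distrib]
    congr 1
    exact prod_congr rfl fun k _ => ha k
  · intro φ
    change (L.map (extY φ)).sum = _
    rw [← Fin.sum_univ_fun_getElem]
    exact sum_congr rfl fun k _ => extY_of φ (hX' k)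

lemma goodY_of (φ : (Pts A m →₀ ℤ) →+ 𝕜) (hφ : ∀ z ∈ RatEquivZero A m, φ z = 0) :
    GoodY A m (extY fun x : Pts A m => φ (Finsupp.single x 1)) := by
  constructor
  · intro c v hc hv
    rw [extY_of _ hv, extY_of _ (onY_smul hc hv), mkY_smul hc hv]
  · intro d F hF hdec s s' hs hs'
    obtain ⟨P, hP⟩ := hF
    obtain ⟨p, hp, hp'⟩ := rep_to_chowY hs
    obtain ⟨q, hq, hq'⟩ := rep_to_chowY hs'
    rw [hp', hq']
    have h1 : Joined p q := by
      refine ⟨P, fun t => ?_, ?_, ?_⟩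
      · obtain ⟨s'', hs''⟩ := hdec t
        obtain ⟨w, hw, _⟩ := rep_to_chowY hs''
        rw [← hP]
        exact ⟨w, hw⟩
      · rw [← hP]
        exact hp
      · rw [← hP]
        exact hq
    have h2 := hφ _ (AddSubgroup.subset_closure ⟨d, p, q, h1, rfl⟩)
    rw [map_sub, map_sum, map_sum, sub_eq_zero] at h2
    exact h2

/-- The main theorem. -/
theorem main (hm : m = 2 ∨ m = 3 ∨ m = 4 ∨ m = 5 ∨ m = 7) (hA : GeneralPosition A)
    (hN : r + 1 ≤ N) (a : Diag 𝕜 N m →₀ ℤ)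
    (ha : ∀ (d : ℕ) (P : MvPolynomial (Fin N) 𝕜), d + N = r * m → P.IsHomogeneous d →
      ∀ v : Fin N → 𝕜, (∀ j, ∑ i, A j i * v i ^ m = 0) →
        (a.sum fun g c => (c : 𝕜) * ((∏ i, g.1 i) * eval (fun i => g.1 i * v i) P)) = 0)
    (z : Pts A m →₀ ℤ) (hz : (z.sum fun _ c => c) = 0) :
    ∃ k : ℕ, 0 < k ∧ k • (a.sum fun g c => c • z.mapDomain (act g)) ∈ RatEquivZero A m := by
  set w : (Pts A m →₀ ℤ) ⧸ RatEquivZero A m :=
    QuotientAddGroup.mk (a.sum fun g c => c • z.mapDomain (act g)) with hw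
  have key : ∀ φ : ((Pts A m →₀ ℤ) ⧸ RatEquivZero A m) →+ 𝕜, φ w = 0 := by
    intro φ
    set ψ : (Pts A m →₀ ℤ) →+ 𝕜 := φ.comp (QuotientAddGroup.mk' (RatEquivZero A m)) with hψ
    have hψ0 : ∀ z ∈ RatEquivZero A m, ψ z = 0 := by
      intro z hz
      rw [hψ, AddMonoidHom.comp_apply, QuotientAddGroup.mk'_apply,
        (QuotientAddGroup.eq_zero_iff z).2 hz, map_zero]
    obtain ⟨V, hV⟩ := (goodY_of ψ hψ0).const hm hA hN a ha
    have h1 : ∀ x : Pts A m,
        ∑ g ∈ a.support, (a g : 𝕜) * ψ (Finsupp.single (act g x) 1) = V := by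
      intro x
      rw [← hV _ (onY_rep x)]
      refine sum_congr rfl fun g _ => ?_
      rw [extY_of _ (onY_dg _ (onY_rep x))]
      have h4 : act g x = mkY (dg (ex g) x.1.rep) (onY_dg _ (onY_rep x)) := by
        apply Subtype.ext
        change Projectivization.mk 𝕜 _ _ = Projectivization.mk 𝕜 _ _
        congr 1
        funext l
        rw [dg, ex_spec]
      rw [h4]
    have h2 : φ w = ψ (a.sum fun g c => c • z.mapDomain (act g)) := rfl
    rw [h2, Finsupp.sum, map_sum]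
    have h3 : ∀ g : Diag 𝕜 N m, ψ (a g • z.mapDomain (act g)) =
        ∑ x ∈ z.support, (z x : 𝕜) * ((a g : 𝕜) * ψ (Finsupp.single (act g x) 1)) := by
      intro g
      rw [map_zsmul, Finsupp.mapDomain, Finsupp.sum, map_sum, zsmul_eq_mul, mul_sum]
      refine sum_congr rfl fun x _ => ?_
      have h4 : (Finsupp.single (act g x) (z x) : Pts A m →₀ ℤ) =
          z x • Finsupp.single (act g x) 1 := by
        rw [Finsupp.smul_single, smul_eq_mul, mul_one]
      rw [h4, map_zsmul, zsmul_eq_mul]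
      ring
    simp only [h3]
    rw [sum_comm]
    simp only [← mul_sum, h1]
    rw [← sum_mul]
    have h5 : ∑ x ∈ z.support, (z x : 𝕜) = 0 := by
      have h6 : ((z.sum fun _ c => c : ℤ) : 𝕜) = 0 := by rw [hz]; simp
      rw [Finsupp.sum] at h6
      rw [← h6]
      push_cast
      rfl
    rw [h5, zero_mul]
  obtain ⟨k, hk, hkw⟩ := torsion_of w key
  refine ⟨k, hk, ?_⟩
  rw [hw, ← QuotientAddGroup.mk_nsmul] at hkw
  exact (QuotientAddGroup.eq_zero_iff _).1 hkw

end Pool.Agent.T2H37.CI
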