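import Pool.Agent.T2H37.CI.Defs
import Pool.Agent.T2H37.FK.Final

/-!
# Rational curves in the symmetric powers of complete intersections
-/

set_option autoImplicit false
set_option linter.unusedSectionVars false
set_option linter.unusedSimpArgs false

namespace Pool.Agent.T2H37.CI

open MvPolynomial Finset Pool.Agent.T2H37.FK

variable {𝕜 : Type*} [Field 𝕜] [IsAlgClosed 𝕜] [CharZero 𝕜]

variable {r N m : ℕ}

/-- the nonzero vectors on the cone over the complete intersection -/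
def OnY (A : Matrix (Fin r) (Fin N) 𝕜) (m : ℕ) (v : Fin N → 𝕜) : Prop :=
  v ≠ 0 ∧ ∀ j, ∑ i, A j i * v i ^ m = 0

/-- `F` is the Chow form of the cycle `s` -/
def RepY (A : Matrix (Fin r) (Fin N) 𝕜) (m d : ℕ) (F : MvPolynomial (Fin N) 𝕜)
    (s : Multiset (Fin N → 𝕜)) : Prop :=
  s.card = d ∧ (∀ v ∈ s, OnY A m v) ∧ ∃ c : 𝕜, c ≠ 0 ∧ F = C c * (s.map lin).prod

/-- the functions on vectors that come from additive functions on cycles modulo
rational equivalence -/
structure GoodY (A : Matrix (Fin r) (Fin N) 𝕜) (m : ℕ) (f : (Fin N → 𝕜) → 𝕜) : Prop where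
  smul : ∀ (c : 𝕜) (v : Fin N → 𝕜), c ≠ 0 → OnY A m v → f (c • v) = f v
  fam : ∀ (d : ℕ) (F : 𝕜 → MvPolynomial (Fin N) 𝕜), PF F → (∀ t, ∃ s, RepY A m d (F t) s) →
    ∀ s s' : Multiset (Fin N → 𝕜), RepY A m d (F 0) s → RepY A m d (F 1) s' →
      (s.map f).sum = (s'.map f).sum

lemma PF.aeval {ι : Type*} (Q : MvPolynomial ι 𝕜) {G : ι → 𝕜 → MvPolynomial (Fin N) 𝕜}
    (hG : ∀ i, PF (G i)) : PF fun t => MvPolynomial.aeval (fun i => G i t) Q := by
  induction Q using MvPolynomial.induction_on with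
  | C a =>
    have h1 : (fun t : 𝕜 => MvPolynomial.aeval (fun i => G i t) (C a : MvPolynomial ι 𝕜)) =
        fun _ => C a := by
      funext t
      rw [aeval_C]
      rfl
    rw [h1]
    exact PF.const _
  | add p q hp hq =>
    simp only [map_add]
    exact hp.add hq
  | mul_X p i hp =>
    simp only [map_mul, aeval_X]
    exact hp.mul (hG i)

section norm

variable [NeZero m] {ι : Type*} [Fintype ι] [DecidableEq ι]

/-- the product over all changes of the coordinates by roots of unity -/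
noncomputable def normPoly (𝕜 : Type*) [Field 𝕜] [IsAlgClosed 𝕜] [CharZero 𝕜] (m : ℕ) [NeZero m]
    (ι : Type*) [Fintype ι] [DecidableEq ι] : MvPolynomial ι 𝕜 :=
  ∏ k : ι → ZMod m, ∑ i, C (e 𝕜 (k i)) * X i

/-- scaling of the variables -/
noncomputable def scl (c : ι → 𝕜) : MvPolynomial ι 𝕜 →ₐ[𝕜] MvPolynomial ι 𝕜 :=
  aeval fun i => C (c i) * X i

lemma scl_monomial (c : ι → 𝕜) (d : ι →₀ ℕ) (a : 𝕜) :
    scl c (monomial d a) = monomial d (a * ∏ i, c i ^ d i) := by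
  rw [scl, aeval_monomial, Finsupp.prod_fintype _ _ (by intro i; rw [pow_zero])]
  simp only [mul_pow, prod_mul_distrib, ← C_pow]
  rw [← map_prod, ← mul_assoc, algebraMap_eq, ← C_mul]
  have h1 : monomial d (a * ∏ i, c i ^ d i) = C (a * ∏ i, c i ^ d i) * ∏ i, X i ^ d i := by
    rw [monomial_eq, Finsupp.prod_fintype _ _ (by intro i; rw [pow_zero])]
  rw [h1]

lemma coeff_scl (c : ι → 𝕜) (P : MvPolynomial ι 𝕜) (d : ι →₀ ℕ) :
    coeff d (scl c P) = coeff d P * ∏ i, c i ^ d i := by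
  induction P using MvPolynomial.induction_on' with
  | monomial d' a =>
    rw [scl_monomial, coeff_monomial, coeff_monomial]
    split_ifs with h
    · rw [h]
    · rw [zero_mul]
  | add p q hp hq => rw [map_add, coeff_add, coeff_add, hp, hq, add_mul]

lemma scl_normPoly (i₀ : ι) :
    scl (fun i => if i = i₀ then e 𝕜 (1 : ZMod m) else 1) (normPoly 𝕜 m ι) = normPoly 𝕜 m ι := by
  rw [normPoly, map_prod]
  refine Fintype.prod_equiv (Equiv.addRight (Pi.single i₀ (1 : ZMod m))) _ _ fun k => ?_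
  rw [map_sum]
  refine sum_congr rfl fun i _ => ?_
  rw [map_mul, scl, aeval_X, algHom_C, algebraMap_eq, ← mul_assoc, ← C_mul]
  change _ = C (e 𝕜 (k i + (Pi.single i₀ (1 : ZMod m) : ι → ZMod m) i)) * X i
  by_cases h : i = i₀
  · subst h
    rw [if_pos rfl, Pi.single_eq_same, e_add]
  · rw [if_neg h, Pi.single_eq_of_ne h, add_zero, mul_one]

lemma normPoly_dvd {d : ι →₀ ℕ} (hd : coeff d (normPoly 𝕜 m ι) ≠ 0) (i₀ : ι) : m ∣ d i₀ := by
  have h1 := congrArg (coeff d) (scl_normPoly (𝕜 := 𝕜) (m := m) i₀)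
  rw [coeff_scl] at h1
  have h2 : ∏ i, (if i = i₀ then e 𝕜 (1 : ZMod m) else 1) ^ d i = e 𝕜 (1 : ZMod m) ^ d i₀ := by
    rw [prod_eq_single i₀]
    · rw [if_pos rfl]
    · intro i _ hi
      rw [if_neg hi, one_pow]
    · intro h
      exact absurd (mem_univ _) h
  rw [h2] at h1
  have h3 : e 𝕜 (1 : ZMod m) ^ d i₀ = 1 := by
    have h4 : coeff d (normPoly 𝕜 m ι) * (e 𝕜 (1 : ZMod m) ^ d i₀ - 1) = 0 := by
      rw [mul_sub, h1, mul_one, sub_self]
    exact sub_eq_zero.1 ((mul_eq_zero.1 h4).resolve_left hd)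
  have h5 := e_primitive (𝕜 := 𝕜) (m := m) 1
  exact h5.dvd_of_pow_eq_one _ h3

lemma exists_norm (𝕜 : Type*) [Field 𝕜] [IsAlgClosed 𝕜] [CharZero 𝕜] (m : ℕ) [NeZero m]
    (ι : Type*) [Fintype ι] [DecidableEq ι] : ∃ Q : MvPolynomial ι 𝕜,
    ∀ (R : Type _) [CommRing R] [Algebra 𝕜 R] (l : ι → R),
      ∏ k : ι → ZMod m, ∑ i, algebraMap 𝕜 R (e 𝕜 (k i)) * l i = aeval (fun i => l i ^ m) Q := by
  refine ⟨∑ d ∈ (normPoly 𝕜 m ι).support,
    monomial (Finsupp.equivFunOnFinite.symm fun i => d i / m) (coeff d (normPoly 𝕜 m ι)), ?_⟩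
  intro R _ _ l
  have h1 : ∏ k : ι → ZMod m, ∑ i, algebraMap 𝕜 R (e 𝕜 (k i)) * l i = aeval l (normPoly 𝕜 m ι) := by
    rw [normPoly, map_prod]
    refine prod_congr rfl fun k _ => ?_
    rw [map_sum]
    refine sum_congr rfl fun i _ => ?_
    rw [map_mul, aeval_C, aeval_X]
  rw [h1, map_sum]
  conv_lhs => rw [(normPoly 𝕜 m ι).as_sum, map_sum]
  refine sum_congr rfl fun d hd => ?_
  rw [aeval_monomial, aeval_monomial]
  congr 1
  rw [Finsupp.prod_fintype _ _ (by intro i; rw [pow_zero]),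
    Finsupp.prod_fintype _ _ (by intro i; rw [pow_zero])]
  refine prod_congr rfl fun i _ => ?_
  rw [← pow_mul]
  congr 1
  change d i = m * (d i / m)
  rw [Nat.mul_div_cancel' (normPoly_dvd (mem_support_iff.1 hd) i)]

end norm

section family

variable [NeZero m] {ι : Type*} [Fintype ι] [DecidableEq ι] {A : Matrix (Fin r) (Fin N) 𝕜}
  {f : (Fin N → 𝕜) → 𝕜}

/-- moving in a family -/
theorem GoodY.family (hf : GoodY A m f) (blk : Fin N → ι) (U : ι → 𝕜 → 𝕜) (V : Fin N → 𝕜 → 𝕜)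
    (hU : ∀ i, PF fun t => (C (U i t) : MvPolynomial (Fin N) 𝕜))
    (hV : ∀ l, PF fun t => (C (V l t) : MvPolynomial (Fin N) 𝕜))
    (hX : ∀ t j, ∑ l, A j l * (U (blk l) t * V l t ^ m) = 0)
    (hne : ∀ t, ∃ l, U (blk l) t ≠ 0 ∧ V l t ≠ 0)
    (u₀ u₁ : ι → 𝕜) (h0 : ∀ i, u₀ i ^ m = U i 0) (h1 : ∀ i, u₁ i ^ m = U i 1) :
    ∑ k : ι → ZMod m, f (fun l => e 𝕜 (k (blk l)) * (u₀ (blk l) * V l 0)) =
      ∑ k : ι → ZMod m, f (fun l => e 𝕜 (k (blk l)) * (u₁ (blk l) * V l 1)) := by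
  obtain ⟨Q, hQ⟩ := exists_norm 𝕜 m ι
  -- the linear forms of the blocks
  set L : ι → 𝕜 → MvPolynomial (Fin N) 𝕜 := fun i t => ∑ l with blk l = i, C (V l t) * X l with hL
  set F : 𝕜 → MvPolynomial (Fin N) 𝕜 :=
    fun t => aeval (fun i => C (U i t) * L i t ^ m) Q with hF
  have hPF : PF F := by
    refine PF.aeval Q fun i => ?_
    refine (hU i).mul (FK.PF.pow ?_ m)
    exact PF.sum _ fun l _ => (hV l).mul (PF.const _)
  have hlin : ∀ (t : 𝕜) (u : ι → 𝕜) (k : ι → ZMod m),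
      lin (fun l => e 𝕜 (k (blk l)) * (u (blk l) * V l t)) =
        ∑ i, algebraMap 𝕜 (MvPolynomial (Fin N) 𝕜) (e 𝕜 (k i)) * (C (u i) * L i t) := by
    intro t u k
    rw [lin, ← sum_fiberwise univ blk]
    refine sum_congr rfl fun i _ => ?_
    rw [hL, mul_sum, mul_sum]
    refine sum_congr rfl fun l hl => ?_
    rw [mem_filter] at hl
    rw [hl.2, algebraMap_eq, C_mul, C_mul]
    ring
  have hrep : ∀ (t : 𝕜) (u : ι → 𝕜), (∀ i, u i ^ m = U i t) →
      RepY A m (Fintype.card (ι → ZMod m)) (F t)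
        (univ.val.map fun k : ι → ZMod m => fun l => e 𝕜 (k (blk l)) * (u (blk l) * V l t)) := by
    intro t u hu
    refine ⟨?_, ?_, 1, one_ne_zero, ?_⟩
    · rw [Multiset.card_map, card_val, card_univ]
    · intro w hw
      rw [Multiset.mem_map] at hw
      obtain ⟨k, _, rfl⟩ := hw
      constructor
      · intro h
        obtain ⟨l, hl1, hl2⟩ := hne t
        have h2 := congrFun h l
        have h3 : u (blk l) ≠ 0 := by
          intro h4
          apply hl1
          rw [← hu, h4, zero_pow (NeZero.ne m)]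
        exact mul_ne_zero (e_ne_zero _) (mul_ne_zero h3 hl2) h2
      · intro j
        rw [← hX t j]
        refine sum_congr rfl fun l _ => ?_
        rw [mul_pow, mul_pow, e_pow_m, hu, one_mul]
    · rw [Multiset.map_map]
      change _ = C 1 * ∏ k : ι → ZMod m, lin (fun l => e 𝕜 (k (blk l)) * (u (blk l) * V l t))
      simp only [hlin]
      rw [hQ, C_1, one_mul, hF]
      simp only
      congr 2
      funext i
      rw [mul_pow, ← C_pow, hu]
  have hex : ∀ t, ∃ s, RepY A m (Fintype.card (ι → ZMod m)) (F t) s := by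
    intro t
    choose u hu using fun i => IsAlgClosed.exists_pow_nat_eq (U i t) (NeZero.pos m)
    exact ⟨_, hrep t u hu⟩
  have h2 := hf.fam _ F hPF hex _ _ (hrep 0 u₀ h0) (hrep 1 u₁ h1)
  rw [Multiset.map_map, Multiset.map_map] at h2
  exact h2

end family

end Pool.Agent.T2H37.CI
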