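import Pool.Agent.T2H37.CI.Geo
import Pool.Agent.T2H37.CI.Comb

/-!
# Vanishing of the components for split characters
-/

set_option autoImplicit false
set_option linter.unusedSectionVars false
set_option linter.unusedSimpArgs false

namespace Pool.Agent.T2H37.CI

open MvPolynomial Finset Pool.Agent.T2H37.FK

variable {𝕜 : Type*} [Field 𝕜] [IsAlgClosed 𝕜] [CharZero 𝕜]

variable {r N m : ℕ} [NeZero m] {A : Matrix (Fin r) (Fin N) 𝕜} {f : (Fin N → 𝕜) → 𝕜}

lemma onY_dg (g : Fin N → ZMod m) {v : Fin N → 𝕜} (hv : OnY A m v) : OnY A m (dg g v) := by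
  constructor
  · intro h0
    apply hv.1
    funext l
    have h1 := congrFun h0 l
    exact (mul_eq_zero.1 h1).resolve_left (e_ne_zero _)
  · intro j
    rw [← hv.2 j]
    refine sum_congr rfl fun l _ => ?_
    rw [dg, mul_pow, e_pow_m, one_mul]

lemma e_ne_one {x : ZMod m} (hx : x ≠ 0) : e 𝕜 x ≠ 1 := by
  intro h
  rw [← e_zero (𝕜 := 𝕜) (m := m)] at h
  exact hx (e_inj h)

/-- a component that is multiplied by a nontrivial root of unity is zero -/
lemma comp_zero_of {α h : Fin N → ZMod m} {v : Fin N → 𝕜} (hh : pr α h ≠ 0)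
    (hc : comp f α (dg h v) = comp f α v) : comp f α v = 0 := by
  rw [comp_dg] at hc
  have h4 : (e 𝕜 (pr α h) - 1) * comp f α v = 0 := by
    rw [sub_mul, one_mul, hc, sub_self]
  exact (mul_eq_zero.1 h4).resolve_left (sub_ne_zero.2 (e_ne_one hh))

lemma pr_single (α : Fin N → ZMod m) (i : Fin N) (x : ZMod m) : pr α (Pi.single i x) = α i * x := by
  rw [pr, sum_eq_single i]
  · rw [Pi.single_eq_same]
  · intro j _ hj
    rw [Pi.single_eq_of_ne hj, mul_zero]
  · intro h
    exact absurd (mem_univ _) h

/-- the component vanishes at vectors with a coordinate zero where the character is not trivial -/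
lemma comp_coord_zero {α : Fin N → ZMod m} {v : Fin N → 𝕜} {i : Fin N} (hi : α i ≠ 0)
    (hv : v i = 0) : comp f α v = 0 := by
  refine comp_zero_of (h := Pi.single i 1) (by rwa [pr_single, mul_one]) ?_
  congr 1
  funext l
  rw [dg]
  by_cases h : l = i
  · rw [h, hv, mul_zero]
  · rw [Pi.single_eq_of_ne h, e_zero, one_mul]

lemma GoodY.comp_sum_ne (hf : GoodY A m f) {α : Fin N → ZMod m} (hα : ∑ i, α i ≠ 0)
    {v : Fin N → 𝕜} (hv : OnY A m v) : comp f α v = 0 := by
  refine comp_zero_of (h := fun _ => (1 : ZMod m)) ?_ ?_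
  · simpa [pr] using hα
  · simp only [comp]
    refine sum_congr rfl fun g _ => ?_
    rw [dg_comm]
    have h2 : dg (fun _ => (1 : ZMod m)) (dg g v) = e 𝕜 (1 : ZMod m) • dg g v := by
      funext l
      simp [dg]
    rw [h2, hf.smul _ _ (e_ne_zero _) (onY_dg g hv)]

/-- the component of the trivial character is constant -/
lemma GoodY.comp_zero (hf : GoodY A m f) {v v' : Fin N → 𝕜} (hv : OnY A m v) (hv' : OnY A m v') :
    comp f (0 : Fin N → ZMod m) v = comp f (0 : Fin N → ZMod m) v' := by
  have h0 : ∀ w : Fin N → 𝕜, comp f (0 : Fin N → ZMod m) w = ∑ g : Fin N → ZMod m, f (dg g w) := by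
    intro w
    simp only [comp]
    refine sum_congr rfl fun g _ => ?_
    have h1 : pr (0 : Fin N → ZMod m) g = 0 := by simp [pr]
    rw [h1, neg_zero, e_zero, one_mul]
  rw [h0, h0]
  by_cases hex : ∃ t : 𝕜, ∀ l, (1 - t) * v l ^ m + t * v' l ^ m = 0
  · obtain ⟨t, ht⟩ := hex
    have ht0 : t ≠ 0 := by
      rintro rfl
      apply hv.1
      funext l
      have h1 := ht l
      rw [sub_zero, one_mul, zero_mul, add_zero] at h1
      exact (pow_eq_zero_iff (NeZero.ne m)).1 h1
    have ht1 : 1 - t ≠ 0 := by
      intro h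
      apply hv'.1
      funext l
      have h1 := ht l
      rw [h, zero_mul, zero_add] at h1
      exact (pow_eq_zero_iff (NeZero.ne m)).1 ((mul_eq_zero.1 h1).resolve_left ht0)
    obtain ⟨γ, hγ⟩ := IsAlgClosed.exists_pow_nat_eq (-(1 - t) / t) (NeZero.pos m)
    have hγ0 : γ ≠ 0 := by
      rintro rfl
      rw [zero_pow (NeZero.ne m)] at hγ
      exact div_ne_zero (neg_ne_zero.2 ht1) ht0 hγ.symm
    have h1 : ∀ l, ∃ k : ZMod m, v' l = e 𝕜 k * (γ * v l) := by
      intro l
      by_cases hl : v l = 0
      · refine ⟨0, ?_⟩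
        have h2 := ht l
        rw [hl, zero_pow (NeZero.ne m), mul_zero, zero_add] at h2
        have h3 := (pow_eq_zero_iff (NeZero.ne m)).1 ((mul_eq_zero.1 h2).resolve_left ht0)
        rw [h3, hl, mul_zero, mul_zero]
      · have h2 : (v' l / (γ * v l)) ^ m = 1 := by
          rw [div_pow, mul_pow, hγ, div_eq_one_iff_eq]
          · have h3 := ht l
            field_simp
            linear_combination h3
          · exact mul_ne_zero (div_ne_zero (neg_ne_zero.2 ht1) ht0) (pow_ne_zero _ hl)
        obtain ⟨k, hk⟩ := exists_e h2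
        refine ⟨k, ?_⟩
        rw [hk, div_mul_cancel₀]
        exact mul_ne_zero hγ0 hl
    choose k hk using h1
    refine Fintype.sum_equiv (Equiv.addRight (-k)) _ _ fun g => ?_
    have h2 : dg (g + -k) v' = γ • dg g v := by
      funext l
      change e 𝕜 (g l + -k l) * v' l = γ * (e 𝕜 (g l) * v l)
      rw [hk l, e_add]
      have h3 : e 𝕜 (-k l) * e 𝕜 (k l) = 1 := by rw [← e_add, neg_add_cancel, e_zero]
      linear_combination (e 𝕜 (g l) * γ * v l) * h3
    rw [Equiv.coe_addRight]
    change f (dg g v) = f (dg (g + -k) v')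
    rw [h2, hf.smul _ _ hγ0 (onY_dg g hv)]
  · push Not at hex
    have h1 := hf.family (ι := Fin N) id (fun l t => (1 - t) * v l ^ m + t * v' l ^ m) (fun _ _ => 1)
      (by
        intro i
        simp only [map_add, map_mul, map_sub]
        exact ((((PF.const _).sub PF.id).mul (PF.const _)).add (PF.id.mul (PF.const _))))
      (fun _ => PF.const _)
      (by
        intro t j
        have h2 := hv.2 j
        have h3 := hv'.2 j
        have h4 : ∑ l, A j l * (((1 - t) * v l ^ m + t * v' l ^ m) * 1 ^ m) =
            (1 - t) * ∑ l, A j l * v l ^ m + t * ∑ l, A j l * v' l ^ m := by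
          rw [mul_sum, mul_sum, ← sum_add_distrib]
          refine sum_congr rfl fun l _ => ?_
          rw [one_pow]
          ring
        simp only [id]
        rw [h4, h2, h3, mul_zero, mul_zero, add_zero])
      (fun t => by
        obtain ⟨l, hl⟩ := hex t
        exact ⟨l, hl, one_ne_zero⟩)
      v v' (by intro i; simp) (by intro i; simp)
    simp only [id, mul_one] at h1
    exact h1

section split

variable {ι : Type*} [Fintype ι] [DecidableEq ι]

lemma sum_sub {B₀ : ι} (β' : {B : ι // B ≠ B₀} → 𝕜) (β : ι → 𝕜) (w : ι → Fin r → 𝕜) (j : Fin r)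
    (h0 : β B₀ = 0) (h1 : ∀ B (h : B ≠ B₀), β B = β' ⟨B, h⟩) :
    ∑ B : {B // B ≠ B₀}, (β' B • w B.1) j = ∑ B, β B * w B j := by
  rw [← Finset.sum_erase univ (a := B₀) (by rw [h0, zero_mul]),
    Finset.sum_subtype (univ.erase B₀) (p := fun B => B ≠ B₀) (by simp)]
  refine sum_congr rfl fun B _ => ?_
  rw [h1 B.1 B.2]
  rfl

lemma pr_pull {α : Fin N → ZMod m} {blk : Fin N → ι} (hblk : ∀ B, ∑ l with blk l = B, α l = 0)
    (k : ι → ZMod m) : pr α (fun l => k (blk l)) = 0 := by
  rw [pr, ← sum_fiberwise univ blk]
  refine sum_eq_zero fun B _ => ?_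
  have h1 : ∑ l with blk l = B, α l * k (blk l) = (∑ l with blk l = B, α l) * k B := by
    rw [sum_mul]
    refine sum_congr rfl fun l hl => ?_
    rw [(mem_filter.1 hl).2]
  rw [h1, hblk, zero_mul]

/-- two vectors with the same sums over the scalings of the blocks have the same components -/
lemma comp_eq_of {α : Fin N → ZMod m} {blk : Fin N → ι} (hblk : ∀ B, ∑ l with blk l = B, α l = 0)
    {v v' : Fin N → 𝕜} (h : ∀ g : Fin N → ZMod m, ∑ k : ι → ZMod m, f (dg (fun l => k (blk l)) (dg g v)) =
      ∑ k : ι → ZMod m, f (dg (fun l => k (blk l)) (dg g v'))) : comp f α v = comp f α v' := by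
  have h1 : ∀ w : Fin N → 𝕜, (Fintype.card (ι → ZMod m) : 𝕜) * comp f α w =
      ∑ g : Fin N → ZMod m, e 𝕜 (-pr α g) * ∑ k : ι → ZMod m, f (dg (fun l => k (blk l)) (dg g w)) := by
    intro w
    have h2 : ∀ k : ι → ZMod m, comp f α (dg (fun l => k (blk l)) w) = comp f α w := by
      intro k
      rw [comp_dg, pr_pull hblk, e_zero, one_mul]
    have h3 : (Fintype.card (ι → ZMod m) : 𝕜) * comp f α w =
        ∑ k : ι → ZMod m, comp f α (dg (fun l => k (blk l)) w) := by
      simp only [h2, sum_const, card_univ, nsmul_eq_mul]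
    rw [h3]
    simp only [comp, mul_sum]
    rw [sum_comm]
    refine sum_congr rfl fun g _ => sum_congr rfl fun k _ => ?_
    rw [dg_comm]
  have h2 := h1 v
  simp only [h] at h2
  rw [← h1 v'] at h2
  refine mul_left_cancel₀ ?_ h2
  exact Nat.cast_ne_zero.2 Fintype.card_ne_zero

/-- the components of characters which are trivial on many blocks vanish -/
lemma GoodY.comp_blocks (hf : GoodY A m f) {α : Fin N → ZMod m} {blk : Fin N → ι}
    (hsurj : ∀ B, ∃ l, blk l = B) (hblk : ∀ B, ∑ l with blk l = B, α l = 0)
    {l₀ : Fin N} (hl₀ : α l₀ ≠ 0) (hz : ∀ l l', α l = 0 → blk l = blk l' → l = l')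
    (hcard : r + 1 ≤ Fintype.card ι)
    {v : Fin N → 𝕜} (hv : OnY A m v) (hv0 : ∀ l, α l ≠ 0 → v l ≠ 0) : comp f α v = 0 := by
  classical
  set B₀ : ι := blk l₀ with hB₀
  have hB₀z : ∀ l, blk l = B₀ → α l ≠ 0 := by
    intro l hl h
    exact hl₀ (by rw [← hz l l₀ h hl]; exact h)
  -- the normalised vector and the scaling factors
  set V0 : Fin N → 𝕜 := fun l => if α l = 0 then 1 else v l with hV0
  have hV0' : ∀ l, V0 l ≠ 0 := by
    intro l
    simp only [hV0]
    split_ifs with h
    · exact one_ne_zero
    · exact hv0 l h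
  -- the scaling factor of a block
  have hu : ∃ u : ι → 𝕜, (∀ l, u (blk l) * V0 l = v l) ∧ u B₀ = 1 := by
    choose s hs using hsurj
    refine ⟨fun B => if α (s B) = 0 then v (s B) else 1, ?_, ?_⟩
    · intro l
      by_cases h : α (s (blk l)) = 0
      · have h1 : s (blk l) = l := hz _ _ h (hs _)
        rw [h1] at h
        simp only [hV0, h1, h, if_true, mul_one]
      · have h1 : α l ≠ 0 := by
          intro h1
          have h2 : l = s (blk l) := hz _ _ h1 (hs _).symm
          rw [← h2] at h
          exact h h1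
        simp only [hV0, h, h1, if_false, one_mul]
    · have h1 : α (s B₀) ≠ 0 := hB₀z _ (hs _)
      simp only [h1, if_false]
  obtain ⟨u, hu, huB⟩ := hu
  set w : ι → Fin r → 𝕜 := fun B j => ∑ l with blk l = B, A j l * V0 l ^ m with hw
  have hsumw : ∀ (U : ι → 𝕜) (j : Fin r), ∑ l, A j l * (U (blk l) * V0 l ^ m) = ∑ B, U B * w B j := by
    intro U j
    rw [← sum_fiberwise univ blk]
    refine sum_congr rfl fun B _ => ?_
    rw [hw, mul_sum]
    refine sum_congr rfl fun l hl => ?_
    rw [(mem_filter.1 hl).2]
    ring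
  have hrel : ∀ j, ∑ B, u B ^ m * w B j = 0 := by
    intro j
    rw [← hsumw (fun B => u B ^ m) j, ← hv.2 j]
    refine sum_congr rfl fun l _ => ?_
    rw [← mul_pow, hu]
  have hdg : ∀ (g : Fin N → ZMod m) (l : Fin N), (e 𝕜 (g l) * V0 l) ^ m = V0 l ^ m := by
    intro g l
    rw [mul_pow, e_pow_m, one_mul]
  by_cases hind : LinearIndependent 𝕜 fun B : {B // B ≠ B₀} => w B.1
  · -- the remaining vectors are a basis
    have hcard' : Fintype.card {B // B ≠ B₀} = r := by
      have h1 := hind.fintype_card_le_finrank
      rw [Module.finrank_fin_fun] at h1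
      have h2 : Fintype.card {B // B ≠ B₀} = Fintype.card ι - 1 := by
        rw [Fintype.card_subtype_compl, Fintype.card_subtype_eq]
      omega
    have hspan : Submodule.span 𝕜 (Set.range fun B : {B // B ≠ B₀} => w B.1) = ⊤ := by
      refine hind.span_eq_top_of_card_eq_finrank' ?_
      rw [Module.finrank_fin_fun, hcard']
    have hmem : (fun j => -A j l₀) ∈ Submodule.span 𝕜 (Set.range fun B : {B // B ≠ B₀} => w B.1) := by
      rw [hspan]
      exact Submodule.mem_top
    rw [Submodule.mem_span_range_iff_exists_fun] at hmem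
    obtain ⟨β', hβ'⟩ := hmem
    set β : ι → 𝕜 := fun B => if h : B ≠ B₀ then β' ⟨B, h⟩ else 0 with hβ
    have hβsum : ∀ j, ∑ B, β B * w B j = -A j l₀ := by
      intro j
      have h1 := congrFun hβ' j
      rw [Finset.sum_apply] at h1
      rw [← h1, sum_sub β' β w j (by simp [hβ]) (fun B h => by simp [hβ, h])]
    have hβ0 : β B₀ = 0 := by simp [hβ]
    -- a second element of the block
    obtain ⟨l₁, hl₁, hl₁'⟩ : ∃ l₁, blk l₁ = B₀ ∧ l₁ ≠ l₀ := by
      by_contra hcon
      push Not at hcon
      have h1 := hblk B₀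
      rw [sum_eq_single l₀] at h1
      · exact hl₀ h1
      · intro l hl hne
        exact absurd (hcon l (mem_filter.1 hl).2) hne
      · intro h
        exact (h (mem_filter.2 ⟨mem_univ l₀, (rfl : blk l₀ = B₀)⟩)).elim
    refine comp_zero_of (h := Pi.single l₀ 1) (by rwa [pr_single, mul_one]) ?_
    symm
    refine comp_eq_of hblk fun g => ?_
    set ζ : 𝕜 := e 𝕜 (1 : ZMod m) with hζ
    have hζm : ζ ^ m = 1 := e_pow_m _
    have h1 := hf.family blk
      (fun B t => u B ^ m + β B * ((V0 l₀ * (1 + t * (ζ - 1))) ^ m - V0 l₀ ^ m))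
      (fun l t => if l = l₀ then e 𝕜 (g l) * (V0 l₀ * (1 + t * (ζ - 1))) else e 𝕜 (g l) * V0 l)
      (by
        intro B
        simp only [map_add, map_mul, map_sub, map_pow, map_one]
        exact (PF.const _).add ((PF.const _).mul ((((PF.const _).mul
          ((PF.const _).add (PF.id.mul (PF.const _)))).pow m).sub (PF.const _))))
      (by
        intro l
        by_cases h : l = l₀
        · simp only [h, if_true, map_add, map_mul, map_sub, map_pow, map_one]
          exact (PF.const _).mul ((PF.const _).mul ((PF.const _).add (PF.id.mul (PF.const _))))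
        · simp only [h, if_false]
          exact PF.const _)
      (by
        intro t j
        set y : 𝕜 := (V0 l₀ * (1 + t * (ζ - 1))) ^ m with hy
        have h2 : ∀ l, A j l * ((u (blk l) ^ m + β (blk l) * (y - V0 l₀ ^ m)) *
            (if l = l₀ then e 𝕜 (g l) * (V0 l₀ * (1 + t * (ζ - 1))) else e 𝕜 (g l) * V0 l) ^ m) =
            A j l * ((u (blk l) ^ m + β (blk l) * (y - V0 l₀ ^ m)) * V0 l ^ m) +
              if l = l₀ then A j l₀ * (y - V0 l₀ ^ m) else 0 := by
          intro l
          by_cases h : l = l₀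
          · subst h
            simp only [if_true]
            rw [mul_pow (e 𝕜 (g l)), e_pow_m, one_mul, ← hy]
            have h3 : blk l = B₀ := rfl
            rw [h3, huB, hβ0, one_pow, zero_mul, add_zero]
            ring
          · simp only [h, if_false, hdg, add_zero]
        rw [sum_congr rfl fun l _ => h2 l, sum_add_distrib, sum_ite_eq' univ l₀, if_pos (mem_univ _),
          hsumw (fun B => u B ^ m + β B * (y - V0 l₀ ^ m)) j]
        have h3 : ∑ B, (u B ^ m + β B * (y - V0 l₀ ^ m)) * w B j =
            ∑ B, u B ^ m * w B j + (y - V0 l₀ ^ m) * ∑ B, β B * w B j := by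
          rw [mul_sum, ← sum_add_distrib]
          refine sum_congr rfl fun B _ => ?_
          ring
        rw [h3, hrel, hβsum]
        ring)
      (fun t => by
        refine ⟨l₁, ?_, ?_⟩
        · rw [hl₁, huB, hβ0, one_pow, zero_mul, add_zero]
          exact one_ne_zero
        · simp only [hl₁', if_false]
          exact mul_ne_zero (e_ne_zero _) (hV0' _))
      u u
      (by
        intro B
        simp)
      (by
        intro B
        have h2 : V0 l₀ * (1 + 1 * (ζ - 1)) = V0 l₀ * ζ := by ring
        simp only [h2]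
        rw [mul_pow, hζm, mul_one, sub_self, mul_zero, add_zero])
    refine Eq.trans ?_ (h1.trans ?_)
    · refine sum_congr rfl fun k _ => ?_
      congr 1
      funext l
      simp only [dg]
      rw [← hu l]
      by_cases h : l = l₀
      · subst h
        simp only [if_true, zero_mul, add_zero, mul_one]
        ring
      · simp only [h, if_false]
        ring
    · refine sum_congr rfl fun k _ => ?_
      congr 1
      funext l
      simp only [dg]
      rw [← hu l]
      by_cases h : l = l₀
      · subst h
        rw [if_pos rfl, Pi.single_eq_same]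
        have h2 : V0 l * (1 + 1 * (ζ - 1)) = V0 l * ζ := by ring
        rw [h2]
        ring
      · rw [if_neg h, Pi.single_eq_of_ne h, e_zero]
        ring
  · -- there is a relation
    rw [Fintype.not_linearIndependent_iff] at hind
    obtain ⟨β', hβ', B₁, hB₁⟩ := hind
    set U : ι → 𝕜 := fun B => if h : B ≠ B₀ then β' ⟨B, h⟩ else 0 with hU
    have hUsum : ∀ j, ∑ B, U B * w B j = 0 := by
      intro j
      have h1 := congrFun hβ' j
      rw [Finset.sum_apply] at h1
      rw [← sum_sub β' U w j (by simp [hU]) (fun B h => by simp [hU, h])]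
      exact h1
    have hU0 : U B₀ = 0 := by simp [hU]
    have hU1 : U B₁.1 ≠ 0 := by
      simp only [hU]
      rw [dif_pos B₁.2]
      exact hB₁
    choose u' hu' using fun B => IsAlgClosed.exists_pow_nat_eq (U B) (NeZero.pos m)
    have hu'0 : u' B₀ = 0 := by
      have h1 := hu' B₀
      rw [hU0] at h1
      exact (pow_eq_zero_iff (NeZero.ne m)).1 h1
    have key : comp f α v = comp f α (fun l => u' (blk l) * V0 l) := by
      refine comp_eq_of hblk fun g => ?_
      have h1 := hf.family blk (fun B t => (1 - t) * u B ^ m + t * U B)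
        (fun l _ => e 𝕜 (g l) * V0 l)
        (by
          intro B
          simp only [map_add, map_mul, map_sub, map_pow, map_one]
          exact ((((PF.const _).sub PF.id).mul (PF.const _)).add (PF.id.mul (PF.const _))))
        (fun l => PF.const _)
        (by
          intro t j
          simp only [hdg]
          rw [hsumw (fun B => (1 - t) * u B ^ m + t * U B) j]
          have h3 : ∑ B, ((1 - t) * u B ^ m + t * U B) * w B j =
              (1 - t) * ∑ B, u B ^ m * w B j + t * ∑ B, U B * w B j := by
            rw [mul_sum, mul_sum, ← sum_add_distrib]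
            refine sum_congr rfl fun B _ => ?_
            ring
          rw [h3, hrel, hUsum, mul_zero, mul_zero, add_zero])
        (fun t => by
          by_cases ht : t = 1
          · obtain ⟨l, hl⟩ := hsurj B₁.1
            refine ⟨l, ?_, mul_ne_zero (e_ne_zero _) (hV0' _)⟩
            rw [ht, hl, sub_self, zero_mul, zero_add, one_mul]
            exact hU1
          · refine ⟨l₀, ?_, mul_ne_zero (e_ne_zero _) (hV0' _)⟩
            have h2 : blk l₀ = B₀ := rfl
            rw [h2, huB, hU0, one_pow, mul_one, mul_zero, add_zero]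
            intro h3
            exact ht (by linear_combination -h3))
        u u'
        (by
          intro B
          ring)
        (by
          intro B
          rw [hu']
          ring)
      refine Eq.trans ?_ (h1.trans ?_)
      · refine sum_congr rfl fun k _ => ?_
        congr 1
        funext l
        simp only [dg]
        rw [← hu l]
        ring
      · refine sum_congr rfl fun k _ => ?_
        congr 1
        funext l
        simp only [dg]
        ring
    rw [key]
    refine comp_coord_zero hl₀ ?_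
    have h2 : blk l₀ = B₀ := rfl
    simp only [h2, hu'0, zero_mul]

end split

end Pool.Agent.T2H37.CI
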